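import Pool.Agent.H854.SQ.Univ

/-!
# The cubic polynomial of the universal system has integral coefficients
-/

set_option autoImplicit false

open MvPolynomial

universe u v

namespace Pool.Agent.H854.SQ

theorem totalDegree_linRel (k : Type u) [CommRing k] [Nontrivial k] {n : ℕ} (r : Rel (Fin n)) :
    (linRel k r).totalDegree ≤ 1 := by
  rcases r with ⟨i, j, l⟩ | ⟨i, j, l⟩ | i
  · refine (totalDegree_sub _ _).trans (max_le ?_ ?_) <;> exact (totalDegree_X _).le
  · refine (totalDegree_sub _ _).trans (max_le ((totalDegree_add _ _).trans (max_le ?_ ?_)) ?_) <;>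
      exact (totalDegree_X _).le
  · refine (totalDegree_sub _ _).trans (max_le (totalDegree_X _).le ?_)
    rw [totalDegree_one]
    exact Nat.zero_le _

theorem totalDegree_eqn (k : Type u) [CommRing k] [Nontrivial k] {n : ℕ} (e : Eqn n) :
    (eqn k e).totalDegree ≤ 2 := by
  have hX : ∀ v : Var n, (X v : MvPolynomial (Var n) k).totalDegree ≤ 1 := fun v =>
    (totalDegree_X v).le
  rcases e with ⟨i, j⟩ | r | r
  · refine (totalDegree_sub _ _).trans (max_le ((hX _).trans (by norm_num)) ?_)
    exact (totalDegree_mul _ _).trans (add_le_add (hX _) (hX _))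
  · refine (totalDegree_sub _ _).trans (max_le ?_ ((hX _).trans (by norm_num)))
    exact (totalDegree_mul _ _).trans (add_le_add (hX _) (hX _))
  · exact (totalDegree_mul _ _).trans (add_le_add (hX _) (totalDegree_linRel k r))

/-- The polynomial is cubic. -/
theorem totalDegree_univ (k : Type u) [CommRing k] [Nontrivial k] (n : ℕ) :
    (univ k n).totalDegree ≤ 3 := by
  refine totalDegree_finsetSum_le fun e _ => (totalDegree_mul _ _).trans ?_
  have h1 := (totalDegree_rename_le (Sum.inr : Var n → Eqn n ⊕ Var n) (eqn k e)).trans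
    (totalDegree_eqn k e)
  have h2 : (X (Sum.inl e) : MvPolynomial (Eqn n ⊕ Var n) k).totalDegree ≤ 1 :=
    (totalDegree_X _).le
  omega

theorem map_linRel {R : Type u} {S : Type v} [CommRing R] [CommRing S] (f : R →+* S) {n : ℕ}
    (r : Rel (Fin n)) : MvPolynomial.map f (linRel R r) = linRel S r := by
  rcases r with ⟨i, j, l⟩ | ⟨i, j, l⟩ | i <;> simp [linRel, vx, vz]

theorem map_eqn {R : Type u} {S : Type v} [CommRing R] [CommRing S] (f : R →+* S) {n : ℕ}
    (e : Eqn n) : MvPolynomial.map f (eqn R e) = eqn S e := by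
  rcases e with ⟨i, j⟩ | r | r
  · simp [eqn, vx, vz]
  · simp [eqn, vc]
  · rw [eqn, map_mul, map_linRel]
    simp [eqn, vc]

/-- The polynomial is defined over the integers. -/
theorem map_univ {R : Type u} {S : Type v} [CommRing R] [CommRing S] (f : R →+* S) (n : ℕ) :
    MvPolynomial.map f (univ R n) = univ S n := by
  rw [univ, map_sum, univ]
  refine Finset.sum_congr rfl fun e _ => ?_
  rw [map_mul, map_X, map_rename, map_eqn]

end Pool.Agent.H854.SQ
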