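import Pool.Agent.H854.SQ.Exist

/-!
# The universal system of relations
-/

set_option autoImplicit false

open MvPolynomial

universe u v

namespace Pool.Agent.H854.SQ

section

variable (k : Type u) [CommRing k] {n : ℕ}

/-- The ideal of the universal system. -/
noncomputable def ideal (n : ℕ) : Ideal (MvPolynomial (Var n) k) :=
  Ideal.span (Set.range (eqn k : Eqn n → MvPolynomial (Var n) k))

/-- The coordinate ring of the universal system. -/
abbrev Quo (n : ℕ) : Type u := MvPolynomial (Var n) k ⧸ ideal k n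

end

variable {k : Type u} [Field k] {B : Type v} [CommRing B] [Algebra k B] {n : ℕ}

open Classical in
/-- The values of the variables belonging to a family. -/
noncomputable def val (b : Fin n → B) : Var n → B
  | .inl i => b i
  | .inr (.inl (i, j)) => b i * b j
  | .inr (.inr r) => if r ∈ holds k b then 1 else 0

theorem aeval_linRel (b : Fin n → B) (r : Rel (Fin n)) :
    aeval (val (k := k) b) (linRel k r) = aeval b (relPoly k r) := by
  rcases r with ⟨i, j, l⟩ | ⟨i, j, l⟩ | i <;> simp [linRel, relPoly, vx, vz, val]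

theorem aeval_eqn (b : Fin n → B) (e : Eqn n) : aeval (val (k := k) b) (eqn k e) = 0 := by
  rcases e with ⟨i, j⟩ | r | r
  · simp [eqn, vx, vz, val]
  · by_cases hr : r ∈ holds k b <;> simp [eqn, vc, val, hr]
  · rw [eqn, map_mul, aeval_linRel]
    by_cases hr : r ∈ holds k b
    · rw [show aeval b (relPoly k r) = 0 from hr, mul_zero]
    · simp [vc, val, hr]

/-- The homomorphism belonging to a family. -/
noncomputable def psi (b : Fin n → B) : Quo k n →ₐ[k] B :=
  Ideal.Quotient.liftₐ _ (aeval (val (k := k) b)) (fun a ha => by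
    have h : ideal k n ≤ RingHom.ker (aeval (val (k := k) b) : MvPolynomial (Var n) k →ₐ[k] B) := by
      rw [ideal, Ideal.span_le]
      rintro _ ⟨e, rfl⟩
      exact aeval_eqn b e
    exact h ha)

theorem psi_mk (b : Fin n → B) (f : MvPolynomial (Var n) k) :
    psi b (Ideal.Quotient.mk _ f) = aeval (val (k := k) b) f := rfl

theorem psi_surjective {b : Fin n → B}
    (hb : Function.Surjective (aeval b : MvPolynomial (Fin n) k →ₐ[k] B)) :
    Function.Surjective (psi b : Quo k n →ₐ[k] B) := by
  intro y
  obtain ⟨f, rfl⟩ := hb y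
  refine ⟨Ideal.Quotient.mk _ (rename Sum.inl f), ?_⟩
  rw [psi_mk, aeval_rename]
  rfl

variable (k) in
/-- The class of the variable `cᵣ`. -/
noncomputable def cc (r : Rel (Fin n)) : Quo k n := Ideal.Quotient.mk _ (vc k r)

theorem mk_eqn (e : Eqn n) : (Ideal.Quotient.mk (ideal k n) (eqn k e)) = 0 :=
  Ideal.Quotient.eq_zero_iff_mem.2 (Ideal.subset_span ⟨e, rfl⟩)

theorem cc_mul_cc (r : Rel (Fin n)) : cc k r * cc k r = cc k r := by
  have h := mk_eqn (k := k) (.inr (.inl r) : Eqn n)
  rw [eqn, map_sub, map_mul, sub_eq_zero] at h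
  exact h

theorem cc_mul_rel (r : Rel (Fin n)) : cc k r * Ideal.Quotient.mk _ (linRel k r) = 0 := by
  have h := mk_eqn (k := k) (.inr (.inr r) : Eqn n)
  rwa [eqn, map_mul] at h

open Classical in
/-- The factor of the idempotent. -/
noncomputable def fac (b : Fin n → B) (r : Rel (Fin n)) : Quo k n :=
  if r ∈ holds k b then cc k r else 1 - cc k r

/-- The idempotent belonging to a family. -/
noncomputable def eps (b : Fin n → B) : Quo k n := ∏ r : Rel (Fin n), fac b r

theorem fac_mul_fac (b : Fin n → B) (r : Rel (Fin n)) : fac (k := k) b r * fac b r = fac b r := by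
  by_cases hr : r ∈ holds k b
  · simp only [fac, if_pos hr]
    exact cc_mul_cc r
  · simp only [fac, if_neg hr]
    linear_combination cc_mul_cc (k := k) r

theorem eps_mul_eps (b : Fin n → B) : eps (k := k) b * eps b = eps b := by
  rw [eps, ← Finset.prod_mul_distrib]
  exact Finset.prod_congr rfl fun r _ => fac_mul_fac b r

theorem eps_mul_fac (b : Fin n → B) (r : Rel (Fin n)) : eps (k := k) b * fac b r = eps b := by
  classical
  rw [eps, ← Finset.mul_prod_erase Finset.univ (fac (k := k) b) (Finset.mem_univ r), mul_right_comm,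
    fac_mul_fac]

theorem psi_fac (b : Fin n → B) (r : Rel (Fin n)) : psi b (fac (k := k) b r) = 1 := by
  by_cases hr : r ∈ holds k b
  · rw [fac, if_pos hr, cc, psi_mk]
    simp [vc, val, hr]
  · rw [fac, if_neg hr, map_sub, map_one, cc, psi_mk]
    simp [vc, val, hr]

theorem psi_eps (b : Fin n → B) : psi b (eps (k := k) b) = 1 := by
  rw [eps, map_prod]
  exact Finset.prod_eq_one fun r _ => psi_fac b r

/-- The quotient by the idempotent. -/
theorem eps_mul_eq_zero {b : Fin n → B} (hb : Pres k b) (w : Quo k n) (hw : psi b w = 0) :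
    eps b * w = 0 := by
  classical
  obtain ⟨f, rfl⟩ := Ideal.Quotient.mk_surjective w
  rw [psi_mk] at hw
  set J : Ideal (Quo k n) := Ideal.span {1 - eps b} with hJ
  -- the ring modulo the idempotent
  have hJ1 : ∀ y : Quo k n, eps b * y = 0 → y ∈ J := by
    intro y hy
    rw [hJ, Ideal.mem_span_singleton']
    exact ⟨y, by linear_combination (-1) * hy⟩
  have hJ2 : ∀ y ∈ J, eps b * y = 0 := by
    intro y hy
    rw [hJ, Ideal.mem_span_singleton'] at hy
    obtain ⟨a, rfl⟩ := hy
    linear_combination (-a) * eps_mul_eps (k := k) b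
  set π : MvPolynomial (Var n) k →ₐ[k] (Quo k n ⧸ J) :=
    (Ideal.Quotient.mkₐ k J).comp (Ideal.Quotient.mkₐ k (ideal k n)) with hπ
  set χ : MvPolynomial (Fin n) k →ₐ[k] (Quo k n ⧸ J) := aeval fun i => π (vx k i) with hχ
  set σ : MvPolynomial (Var n) k →ₐ[k] MvPolynomial (Fin n) k :=
    aeval (fun v : Var n => match v with
      | .inl i => X i
      | .inr (.inl (i, j)) => X i * X j
      | .inr (.inr r) => if r ∈ holds k b then 1 else 0) with hσ
  have hπ0 : ∀ f, π f = 0 ↔ eps b * Ideal.Quotient.mk _ f = 0 := fun f =>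
    ⟨fun h => hJ2 _ (Ideal.Quotient.eq_zero_iff_mem.1 h),
      fun h => Ideal.Quotient.eq_zero_iff_mem.2 (hJ1 _ h)⟩
  have hz : ∀ i j, π (vz k i j) = π (vx k i) * π (vx k j) := by
    intro i j
    have h := mk_eqn (k := k) (.inl (i, j) : Eqn n)
    have h2 : π (eqn k (.inl (i, j) : Eqn n)) = 0 := by
      rw [hπ0, h, mul_zero]
    rw [eqn, map_sub, map_mul, sub_eq_zero] at h2
    exact h2
  have h1 : π = χ.comp σ := by
    refine MvPolynomial.algHom_ext fun v => ?_
    change π (X v) = χ (σ (X v))
    rw [hσ, aeval_X]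
    rcases v with i | ⟨i, j⟩ | r
    · rw [hχ, aeval_X]
      rfl
    · simp only [map_mul, hχ, aeval_X]
      exact hz i j
    · simp only
      by_cases hr : r ∈ holds k b
      · rw [if_pos hr, map_one]
        have h2 : π (vc k r - 1) = 0 := by
          rw [hπ0, map_sub, map_one]
          have h3 := eps_mul_fac (k := k) b r
          rw [fac, if_pos hr] at h3
          change eps b * (cc k r - 1) = 0
          rw [mul_sub, h3, mul_one, sub_self]
        rw [map_sub, map_one, sub_eq_zero] at h2
        exact h2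
      · rw [if_neg hr, map_zero]
        have h2 : π (vc k r) = 0 := by
          rw [hπ0]
          have h3 := eps_mul_fac (k := k) b r
          rw [fac, if_neg hr, mul_sub, mul_one, sub_eq_self] at h3
          exact h3
        exact h2
  have h2 : ∀ r ∈ holds k b, χ (relPoly k r) = 0 := by
    intro r hr
    have h3 : σ (linRel k r) = relPoly k r := by
      rcases r with ⟨i, j, l⟩ | ⟨i, j, l⟩ | i <;> simp [linRel, relPoly, vx, vz, hσ]
    have h4 : π (linRel k r) = 0 := by
      rw [hπ0]
      have h5 := eps_mul_fac (k := k) b r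
      rw [fac, if_pos hr] at h5
      rw [← h5, mul_assoc, cc_mul_rel, mul_zero]
    rw [← h3]
    rw [h1, AlgHom.comp_apply] at h4
    exact h4
  have h3 : aeval b (σ f) = 0 := by
    rw [← hw]
    have h4 : (aeval b : MvPolynomial (Fin n) k →ₐ[k] B).comp σ = aeval (val (k := k) b) := by
      refine MvPolynomial.algHom_ext fun v => ?_
      rw [AlgHom.comp_apply, hσ, aeval_X, aeval_X]
      rcases v with i | ⟨i, j⟩ | r
      · simp [val]
      · simp [val]
      · by_cases hr : r ∈ holds k b <;> simp [val, hr]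
    exact DFunLike.congr_fun h4 f
  have h4 : χ (σ f) = 0 := by
    have h5 : Ideal.span (relPoly k '' holds k b) ≤ RingHom.ker χ := by
      rw [Ideal.span_le]
      rintro _ ⟨r, hr, rfl⟩
      exact h2 r hr
    exact h5 (hb _ h3)
  rw [← hπ0, h1, AlgHom.comp_apply]
  exact h4

/-- The kernel is generated by an idempotent. -/
theorem ker_psi {b : Fin n → B} (hb : Pres k b) :
    IsIdempotentElem (1 - eps (k := k) b) ∧
      RingHom.ker (psi b : Quo k n →ₐ[k] B) = Ideal.span {1 - eps (k := k) b} := by
  refine ⟨?_, le_antisymm ?_ ?_⟩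
  · change (1 - eps (k := k) b) * (1 - eps b) = 1 - eps b
    linear_combination eps_mul_eps (k := k) b
  · intro w hw
    rw [Ideal.mem_span_singleton']
    exact ⟨w, by linear_combination (-1) * eps_mul_eq_zero hb w hw⟩
  · rw [Ideal.span_singleton_le_iff_mem, RingHom.mem_ker, map_sub, map_one]
    rw [show psi b (eps (k := k) b) = 1 from psi_eps b, sub_self]

end Pool.Agent.H854.SQ
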