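import Pool.Agent.H854.SQ.Red

/-!
# Open and closed subschemes
-/

set_option autoImplicit false

open CategoryTheory AlgebraicGeometry

universe u v w

namespace Pool.Agent.H854.SQ

open Pool.Agent.Y138.UC Pool.Agent.H854.AS

variable {k : Type u} [Field k] {F : Type v} [Field F]

theorem isOp_id (X : Sch k) : IsOp (𝟙 X) := by
  change IsOpenImmersion (𝟙 X.left)
  infer_instance

theorem isCl_id (X : Sch k) : IsCl (𝟙 X) := by
  change IsClosedImmersion (𝟙 X.left)
  infer_instance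

theorem isFlatDim_id (X : Sch k) : IsFlatDim (𝟙 X) 0 := .of_open (isOp_id X)

theorem pull_id {P : Grp.{u, v} k F} (hP : P.IsGood) {X : Sch k} (vX : IsVariety X) (n : ℤ)
    (x : P.M X n) : P.pull (𝟙 X) 0 (isFlatDim_id X) n n (by simp) x = x := by
  obtain ⟨y, rfl⟩ := hP.bundleSurj (𝟙 X) 0 (isFlatDim_id X) n n (by simp) vX vX (isBun_id X) x
  exact (hP.pullComp (𝟙 X) (𝟙 X) (𝟙 X) 0 0 0 (isFlatDim_id X) (isFlatDim_id X) (isFlatDim_id X)
    n n n (by simp) (by simp) (by simp) vX vX vX (Category.id_comp _) y).symm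

/-- The empty open subscheme. -/
noncomputable def emp (X : Sch k) : Sch k := opn X ⊥

theorem isEmpty_emp (X : Sch k) : IsEmpty (emp X).left := by
  refine ⟨fun x => ?_⟩
  have h : ((⊥ : X.left.Opens).ι x) ∈ (⊥ : X.left.Opens) := x.2
  exact h

theorem isVariety_emp {X : Sch k} (vX : IsVariety X) : IsVariety (emp X) := isVariety_opn vX _

theorem compl_emp (X : Sch k) : IsComplement (𝟙 X) (opnι X ⊥) := by
  refine ⟨isCl_id X, ?_, ?_⟩
  · change IsOpenImmersion (⊥ : X.left.Opens).ι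
    infer_instance
  · ext x
    constructor
    · rintro - ⟨y, -⟩
      exact (isEmpty_emp X).false y
    · intro _
      exact ⟨x, rfl⟩

theorem compl_empty {X : Sch k} (h : IsEmpty X.left) : IsComplement (𝟙 X) (𝟙 X) := by
  refine ⟨isCl_id X, isOp_id X, ?_⟩
  ext x
  exact h.elim x

variable {H : Sys.{u, v} k F} (hH : H.IsHomology)
include hH

theorem subsingleton_of_isEmpty {X : Sch k} (vX : IsVariety X) (h : IsEmpty X.left) (m n : ℤ) :
    Subsingleton ((H.g m).M X n) := by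
  refine ⟨fun x y => ?_⟩
  have h1 : ∀ x : (H.g m).M X n, x = 0 := by
    intro x
    have hp : (H.g m).push (𝟙 X) (compl_empty h).1 n x = 0 := by
      have h2 := ((hH.good m).exact (𝟙 X) (𝟙 X) (compl_empty h) (isFlatDim_id X) n vX
        ((H.g m).push (𝟙 X) (compl_empty h).1 n x)).2 ⟨x, rfl⟩
      rwa [pull_id (hH.good m) vX] at h2
    obtain ⟨y, hy⟩ := ((hH.longExact m (𝟙 X) (𝟙 X) (compl_empty h) (isFlatDim_id X) n vX).2 x).1 hp
    have h3 := ((hH.longExact m (𝟙 X) (𝟙 X) (compl_empty h) (isFlatDim_id X) n vX).1 y).2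
      ⟨y, pull_id (hH.good (m + 1)) vX n y⟩
    rw [← hy, h3]
  rw [h1 x, h1 y]

/-- The push-forward along the identity is injective. -/
theorem push_id_inj {X : Sch k} (vX : IsVariety X) (m n : ℤ) (x : (H.g m).M X n)
    (hx : (H.g m).push (𝟙 X) (isCl_id X) n x = 0) : x = 0 := by
  obtain ⟨y, hy⟩ := ((hH.longExact m (𝟙 X) (opnι X ⊥) (compl_emp X) (.of_open (compl_emp X).2.1)
    n vX).2 x).1 hx
  have := subsingleton_of_isEmpty hH (isVariety_emp vX) (isEmpty_emp X) (m + 1) n
  have h0 : y = 0 := Subsingleton.elim (α := ((H.g (m + 1)).M (emp X) n)) _ _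
  rw [← hy, h0, map_zero]

/-- The push-forward along the identity is surjective. -/
theorem push_id_surj {X : Sch k} (vX : IsVariety X) (m n : ℤ) (x : (H.g m).M X n) :
    ∃ y, (H.g m).push (𝟙 X) (isCl_id X) n y = x := by
  have := subsingleton_of_isEmpty hH (isVariety_emp vX) (isEmpty_emp X) m n
  exact ((hH.good m).exact (𝟙 X) (opnι X ⊥) (compl_emp X) (.of_open (compl_emp X).2.1) n vX x).1
    (Subsingleton.elim (α := ((H.g m).M (emp X) n)) _ _)

omit hH

/-- Push-forward and restriction for an open and closed subscheme. -/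
theorem pull_push {P : Grp.{u, v} k F} (hP : P.IsGood) {Z X : Sch k} (i : Z ⟶ X) (hc : IsCl i)
    (ho : IsOp i) (vZ : IsVariety Z) (vX : IsVariety X) (n : ℤ) (x : P.M Z n) :
    P.pull i 0 (.of_open ho) n n (by simp) (P.push i hc n x) = P.push (𝟙 Z) (isCl_id Z) n x := by
  have : IsOpenImmersion i.left := ho
  have h1 : IsCart (𝟙 Z) (𝟙 Z) i i := IsKernelPair.id_of_mono i.left
  rw [hP.baseChange (𝟙 Z) (𝟙 Z) i i (isCl_id Z) hc 0 (isFlatDim_id Z) (.of_open ho) n n (by simp)
    vZ vX h1 x, pull_id hP vZ]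

end Pool.Agent.H854.SQ
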