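import Mathlib

/-!
# The universal system of relations: definitions
-/

set_option autoImplicit false

open MvPolynomial

universe u

namespace Pool.Agent.H854.SQ

/-- All elements of the field are quotients of integers: the field is a prime field. -/
def IsPrimeField (k : Type u) [Field k] : Prop := ∀ x : k, ∃ a b : ℤ, (b : k) ≠ 0 ∧ x = a / b

/-- The relations `xᵢ xⱼ = xₗ` (first summand), `xᵢ + xⱼ = xₗ` (second summand) and `xᵢ = 1` (third
summand) between variables indexed by `ι`. -/
abbrev Rel (ι : Type) : Type := (ι × ι × ι) ⊕ (ι × ι × ι) ⊕ ι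

/-- The variables of the universal system: `xᵢ`, `zᵢⱼ`, and `cᵣ` for all relations `r`. -/
abbrev Var (n : ℕ) : Type := Fin n ⊕ (Fin n × Fin n) ⊕ Rel (Fin n)

/-- The indices of the equations of the universal system. -/
abbrev Eqn (n : ℕ) : Type := (Fin n × Fin n) ⊕ Rel (Fin n) ⊕ Rel (Fin n)

section

variable (k : Type u) [CommRing k] {n : ℕ}

/-- The variable `xᵢ`. -/
noncomputable def vx (i : Fin n) : MvPolynomial (Var n) k := X (.inl i)

/-- The variable `zᵢⱼ`. -/
noncomputable def vz (i j : Fin n) : MvPolynomial (Var n) k := X (.inr (.inl (i, j)))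

/-- The variable `cᵣ`. -/
noncomputable def vc (r : Rel (Fin n)) : MvPolynomial (Var n) k := X (.inr (.inr r))

/-- The relation `r`, where the product `xᵢ xⱼ` is replaced by `zᵢⱼ`. -/
noncomputable def linRel : Rel (Fin n) → MvPolynomial (Var n) k
  | .inl (i, j, l) => vz k i j - vx k l
  | .inr (.inl (i, j, l)) => vx k i + vx k j - vx k l
  | .inr (.inr i) => vx k i - 1

/-- The equations `zᵢⱼ - xᵢ xⱼ`, `cᵣ² - cᵣ` and `cᵣ ρᵣ` of the universal system, where `ρᵣ` is the
relation `r`. -/
noncomputable def eqn : Eqn n → MvPolynomial (Var n) k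
  | .inl (i, j) => vz k i j - vx k i * vx k j
  | .inr (.inl r) => vc k r * vc k r - vc k r
  | .inr (.inr r) => vc k r * linRel k r

/-- The cubic polynomial `∑ tₑ (equation e)`, with one further variable `tₑ` for each equation. -/
noncomputable def univ (n : ℕ) : MvPolynomial (Eqn n ⊕ Var n) k :=
  ∑ e : Eqn n, X (Sum.inl e) * rename Sum.inr (eqn k e)

end

end Pool.Agent.H854.SQ
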