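import Pool.Agent.H854.AS.Defs

/-!
# Theories over finite extensions of the base field: definitions
-/

set_option autoImplicit false

open CategoryTheory AlgebraicGeometry

universe u v w

namespace Pool.Agent.H854.SQ

open Pool.Agent.Y138.UC Pool.Agent.H854.AS

/-- The scheme `X` over the extension `K` of `k` as a scheme over `k`. -/
noncomputable def down (k : Type u) {K : Type u} [Field k] [Field K] [Algebra k K] (X : Sch K) :
    Sch k := Over.mk (X.hom ≫ Spec.map (CommRingCat.ofHom (algebraMap k K)))

/-- The theory `T'` over the extension `K` of `k` belongs to the theory `T` over `k`: the group `G'`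
maps to `G`; cycles on a scheme `X` over the field `K` are cycles on the same scheme over `k`; and the
homology `H_{2 n}(X, -n)` of the scheme over `k` is the representation of `G` which is induced by the
homology of the scheme over `K`, that is, `x ↦ (g ↦ res (g x))` is a bijection to the maps
`f : G → H_{2 n}(X, -n)` with `f (φ (h) g) = h f(g)`. -/
structure Induced {k K : Type u} [Field k] [Field K] [Algebra k K] {F : Type v} [Field F]
    {G G' : Type w} [Group G] [Group G'] (T : Theory.{u, v, w} k F G)
    (T' : Theory.{u, v, w} K F G') where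
  φ : G' →* G
  cyc : ∀ (X : Sch K) (n : ℤ), T.C.M (down k X) n → T'.C.M X n
  res : ∀ (X : Sch K) (n : ℤ), (T.H.g 0).M (down k X) n → (T'.H.g 0).M X n
  res_cls : ∀ (X : Sch K) (n : ℤ) (z : T.C.M (down k X) n),
    res X n (T.cls z) = T'.cls (cyc X n z)
  res_on : ∀ (X : Sch K) (n : ℤ) (h : G') (x : (T.H.g 0).M (down k X) n),
    res X n (T.on (φ h) x) = T'.on h (res X n x)
  inj : ∀ (X : Sch K) (n : ℤ) (x y : (T.H.g 0).M (down k X) n),
    (∀ g : G, res X n (T.on g x) = res X n (T.on g y)) → x = y
  surj : ∀ (X : Sch K) (n : ℤ) (f : G → (T'.H.g 0).M X n),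
    (∀ (h : G') (g : G), f (φ h * g) = T'.on h (f g)) →
      ∃ x : (T.H.g 0).M (down k X) n, ∀ g : G, res X n (T.on g x) = f g

end Pool.Agent.H854.SQ
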