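import Pool.Agent.H854.SQ.Clop
import Pool.Agent.H854.AS.State
import Pool.Agent.H854.SQ.TDefs

/-!
# The Tate conjecture, one sequence of coverings, and finite extensions of the base field
-/

set_option autoImplicit false

open CategoryTheory AlgebraicGeometry

universe u v w

namespace Pool.Agent.H854.SQ

open Pool.Agent.Y138.UC Pool.Agent.H854.AS

section

variable {k : Type u} [Field k] {F : Type v} [Field F] {G : Type w} [Group G]
  {T : Theory.{u, v, w} k F G}

/-- The Tate conjecture can be transferred. -/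
theorem transfers_tate (hT : T.IsValid) : Transfers T.Tate where
  ofOpen := fun hj _ _ hf _ hb e0 vD vE vZ n n' e h =>
    hT.tate_of_open hj hf hb e0 vD vE vZ n n' e h
  ofConfig := by
    intro Z S B C Y V C' C0 B' i j iY jY π πC πV i' j0 b0 a b d r s c N hS n n' e hn h
    refine c.tate_of hT n n' e ?_ h
    rw [hS]
    exact hT.space_chow N n hn
  ofClopen := by
    intro Z X i hc ho vZ vX n h x hx
    obtain ⟨y, rfl⟩ := push_id_surj hT.homology vZ 0 n x
    have hy : ∀ g, T.act Z n g y = y := by
      intro g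
      have h1 : T.act Z n g ((T.H.g 0).push (𝟙 Z) (isCl_id Z) n y) =
        (T.H.g 0).push (𝟙 Z) (isCl_id Z) n y := hx g
      rw [hT.equivariant.1 (𝟙 Z) (isCl_id Z) n vZ g y, ← sub_eq_zero, ← map_sub] at h1
      exact sub_eq_zero.1 (push_id_inj hT.homology vZ 0 n _ h1)
    obtain ⟨w, hw⟩ := h ((T.H.g 0).push i hc n y) (fun g => by
      change T.act X n g _ = _
      rw [hT.equivariant.1 i hc n vX, hy g])
    change T.cl X n w = _ at hw
    refine ⟨T.C.pull i 0 (.of_open ho) n n (by simp) w, ?_⟩
    change T.cl Z n _ = _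
    rw [hT.cycleNat.2 i 0 (.of_open ho) n n (by simp) vZ vX, hw,
      pull_push (hT.homology.good 0) i hc ho vZ vX]

end

section

variable {k K : Type u} [Field k] [Field K] [Algebra k K] {F : Type v} [Field F]
  {G G' : Type w} [Group G] [Group G'] {T : Theory.{u, v, w} k F G} {T' : Theory.{u, v, w} K F G'}

theorem on_mul (g g' : G) {X : Sch k} {n : ℤ} (x : (T.H.g 0).M X n) :
    T.on g (T.on g' x) = T.on (g * g') x := by
  change T.act X n g (T.act X n g' x) = T.act X n (g * g') x
  rw [map_mul]
  rfl

/-- The Tate conjecture for a scheme over `K` follows from that for the scheme over `k`. -/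
theorem Induced.tate (I : Induced T T') (X : Sch K) (n : ℤ) (h : T.Tate (down k X) n) :
    T'.Tate X n := by
  intro v hv
  obtain ⟨x, hx⟩ := I.surj X n (fun _ => v) (fun h _ => (hv h).symm)
  obtain ⟨z, hz⟩ := h x (fun g => I.inj X n _ _ fun g' => by
    rw [on_mul, hx, hx])
  refine ⟨I.cyc X n z, ?_⟩
  rw [← I.res_cls, hz]
  have h1 := hx 1
  have h2 : T.on (1 : G) x = x := by
    change T.act _ n 1 x = x
    rw [map_one]
    rfl
  rwa [h2] at h1

theorem isBun_down {E B : Sch K} {f : E ⟶ B} {r : ℕ} (hf : IsBun f r) :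
    IsBun (k := k) (Over.homMk f.left (by
      change f.left ≫ B.hom ≫ _ = E.hom ≫ _
      rw [← Category.assoc, Over.w f]) : down k E ⟶ down k B) r := hf

theorem isVariety_down [hK : Module.Finite k K] {X : Sch K} (hX : IsVariety X) :
    IsVariety (down k X) := by
  obtain ⟨h1, h2, h3⟩ := hX
  have h4 : LocallyOfFiniteType (Spec.map (CommRingCat.ofHom (algebraMap k K))) := by
    rw [HasRingHomProperty.Spec_iff (P := @LocallyOfFiniteType)]
    exact (RingHom.finiteType_algebraMap).2 inferInstance
  refine ⟨?_, ?_, ?_⟩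
  · change IsSeparated (X.hom ≫ _)
    infer_instance
  · change LocallyOfFiniteType (X.hom ≫ _)
    infer_instance
  · change QuasiCompact (X.hom ≫ _)
    infer_instance

theorem isAdmissible_down [Module.Finite k K] {X : Sch K} (hX : IsAdmissible X) :
    IsAdmissible (down k X) := by
  obtain ⟨vX, E, f, r, hf, hE, vE⟩ := hX
  exact ⟨isVariety_down vX, down k E, _, r, isBun_down hf, hE, isVariety_down vE⟩

end

end Pool.Agent.H854.SQ
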