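import Pool.Agent.H854.SQ.Exist

/-!
# Presentations of polynomial rings
-/

set_option autoImplicit false

open MvPolynomial

universe u v

namespace Pool.Agent.H854.SQ

variable {k : Type u} [Field k] {B : Type v} [CommRing B] [Algebra k B]

/-- The family `b` together with `M` free variables. -/
noncomputable def freeFam {ι : Type} (M : ℕ) (b : ι → B) : Fin M ⊕ ι → MvPolynomial (Fin M) B :=
  Sum.elim X (fun i => C (b i))

section

variable {ι : Type} (M : ℕ) (b : ι → B)

/-- Polynomials in two sets of variables, as polynomials with polynomial coefficients. -/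
noncomputable def eta (k : Type u) [Field k] (ι : Type) (M : ℕ) :
    MvPolynomial (Fin M ⊕ ι) k →+* MvPolynomial (Fin M) (MvPolynomial ι k) :=
  eval₂Hom (C.comp C) (Sum.elim X (fun i => C (X i)))

/-- The inverse map. -/
noncomputable def theta (k : Type u) [Field k] (ι : Type) (M : ℕ) :
    MvPolynomial (Fin M) (MvPolynomial ι k) →+* MvPolynomial (Fin M ⊕ ι) k :=
  eval₂Hom (rename Sum.inr : MvPolynomial ι k →ₐ[k] MvPolynomial (Fin M ⊕ ι) k).toRingHom
    (fun i => X (Sum.inl i))

theorem theta_eta (f : MvPolynomial (Fin M ⊕ ι) k) : theta k ι M (eta k ι M f) = f := by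
  have h : (theta k ι M).comp (eta k ι M) = RingHom.id _ := by
    refine MvPolynomial.ringHom_ext (fun a => ?_) (fun i => ?_)
    · simp [theta, eta]
    · rcases i with i | i <;> simp [theta, eta]
  exact DFunLike.congr_fun h f

theorem map_eta (f : MvPolynomial (Fin M ⊕ ι) k) :
    MvPolynomial.map (aeval b : MvPolynomial ι k →ₐ[k] B).toRingHom (eta k ι M f) =
      aeval (freeFam M b) f := by
  have h : (MvPolynomial.map (aeval b : MvPolynomial ι k →ₐ[k] B).toRingHom).comp (eta k ι M) =
      (aeval (freeFam M b) : MvPolynomial (Fin M ⊕ ι) k →ₐ[k] MvPolynomial (Fin M) B).toRingHom := by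
    refine MvPolynomial.ringHom_ext (fun a => ?_) (fun i => ?_)
    · simp [eta, MvPolynomial.algebraMap_eq, IsScalarTower.algebraMap_apply k B (MvPolynomial (Fin M) B)]
    · rcases i with i | i <;> simp [eta, freeFam]
  exact DFunLike.congr_fun h f

theorem aeval_freeFam (f : MvPolynomial ι k) :
    aeval (freeFam M b) (rename Sum.inr f) = C (aeval b f) := by
  rw [aeval_rename]
  have h : (freeFam M b) ∘ Sum.inr = fun i => C (b i) := rfl
  rw [h]
  have h2 : (aeval (fun i => (C (b i) : MvPolynomial (Fin M) B)) : MvPolynomial ι k →ₐ[k] _) =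
      ((Algebra.ofId B (MvPolynomial (Fin M) B)).restrictScalars k).comp (aeval b) := by
    refine MvPolynomial.algHom_ext fun i => ?_
    simp [Algebra.ofId_apply, MvPolynomial.algebraMap_eq]
  rw [h2]
  rfl

theorem Pres.freeFam {b : ι → B} (hb : Pres k b) : Pres k (freeFam M b) := by
  intro f hf
  rw [← map_eta] at hf
  set J := Ideal.span (relPoly k '' holds k (SQ.freeFam M b)) with hJ
  have h1 : Ideal.span (relPoly k '' holds k b) ≤
      J.comap (rename Sum.inr : MvPolynomial ι k →ₐ[k] MvPolynomial (Fin M ⊕ ι) k) := by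
    rw [Ideal.span_le]
    rintro _ ⟨r, hr, rfl⟩
    rw [SetLike.mem_coe, Ideal.mem_comap, rename_relPoly]
    refine Ideal.subset_span ⟨_, ?_, rfl⟩
    change aeval (SQ.freeFam M b) (relPoly k (r.map Sum.inr)) = 0
    rw [← rename_relPoly, aeval_freeFam]
    have h2 : aeval b (relPoly k r) = 0 := hr
    rw [h2, map_zero]
  have h3 : ∀ m, (eta k ι M f).coeff m ∈ Ideal.span (relPoly k '' holds k b) := by
    intro m
    refine hb _ ?_
    have h4 := congrArg (MvPolynomial.coeff m) hf
    rw [MvPolynomial.coeff_map, MvPolynomial.coeff_zero] at h4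
    exact h4
  rw [← theta_eta M f, (eta k ι M f).as_sum, map_sum]
  refine J.sum_mem fun m _ => ?_
  have h5 : theta k ι M (monomial m ((eta k ι M f).coeff m)) =
      rename Sum.inr ((eta k ι M f).coeff m) * theta k ι M (monomial m 1) := by
    rw [show (monomial m ((eta k ι M f).coeff m) : MvPolynomial (Fin M) (MvPolynomial ι k)) =
      C ((eta k ι M f).coeff m) * monomial m 1 by rw [C_mul_monomial, mul_one], map_mul]
    congr 1
    simp [theta]
  rw [h5]
  exact J.mul_mem_right _ (h1 (h3 m))

theorem surjective_freeFam {b : ι → B}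
    (hb : Function.Surjective (aeval b : MvPolynomial ι k →ₐ[k] B)) :
    Function.Surjective (aeval (SQ.freeFam M b) :
      MvPolynomial (Fin M ⊕ ι) k →ₐ[k] MvPolynomial (Fin M) B) := by
  rw [← AlgHom.range_eq_top]
  refine Algebra.eq_top_iff.2 fun p => ?_
  set R := (aeval (SQ.freeFam M b) :
      MvPolynomial (Fin M ⊕ ι) k →ₐ[k] MvPolynomial (Fin M) B).range with hR
  have hC : ∀ x : B, (C x : MvPolynomial (Fin M) B) ∈ R := by
    intro x
    obtain ⟨f, rfl⟩ := hb x
    exact ⟨rename Sum.inr f, aeval_freeFam M b f⟩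
  induction p using MvPolynomial.induction_on with
  | C a => exact hC a
  | add p q hp hq => exact R.add_mem hp hq
  | mul_X p i hp =>
    refine R.mul_mem hp ⟨X (Sum.inl i), ?_⟩
    change aeval (SQ.freeFam M b) (X (Sum.inl i)) = _
    rw [aeval_X]
    rfl

end

/-- The presentations of the polynomial rings over an algebra of finite type over a prime field. -/
theorem exists_fin_free (B : Type v) [CommRing B] [Algebra k B] (hk : IsPrimeField k)
    [hB : Algebra.FiniteType k B] :
    ∃ m₀ : ℕ, ∀ M m, m₀ + M ≤ m → ∃ b : Fin m → MvPolynomial (Fin M) B,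
      Function.Surjective (aeval b : MvPolynomial (Fin m) k →ₐ[k] MvPolynomial (Fin M) B) ∧
        Pres k b := by
  obtain ⟨m₀, hm⟩ := exists_fin (B := B) hk
  refine ⟨m₀, fun M m h => ?_⟩
  obtain ⟨b, hb, hb'⟩ := hm (m - M) (by omega)
  have e : Fin m ≃ Fin M ⊕ Fin (m - M) :=
    (finCongr (by omega)).trans finSumFinEquiv.symm
  exact ⟨_, surjective_equiv e _ (surjective_freeFam M hb), (hb'.freeFam M).equiv e⟩

end Pool.Agent.H854.SQ
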