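import Pool.Agent.H854.SQ.Red
import Pool.Agent.H854.SQ.Free

/-!
# The reduction to the members of one sequence, one dimension for each member
-/

set_option autoImplicit false

open CategoryTheory AlgebraicGeometry

universe u

namespace Pool.Agent.H854.SQ

open Pool.Agent.Y138.UC Pool.Agent.H854.AS

variable {k : Type u} [Field k] {Q : Sch k → ℤ → Prop} (hQ : Transfers Q)
include hQ

/-- From the members of the sequence in one dimension for each member to all affine schemes. -/
theorem Transfers.affine_diag {P : Polynomial k} (hP : HasSimpleRoots P) (hk : IsPrimeField k)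
    (h : ∃ᶠ n in Filter.atTop, Q (seq P n) ((n / 2 : ℕ) + Fintype.card (Eqn n)))
    (B : Type u) [CommRing B] [Algebra k B] [Algebra.FiniteType k B] (d : ℤ) :
    Q (aff k B) d := by
  obtain ⟨m₀, hm⟩ := exists_fin_free (k := k) B hk
  obtain ⟨n, hn, hQn⟩ := (Filter.frequently_atTop.1 h) (2 * (m₀ + d.natAbs + 1))
  obtain ⟨M, hM⟩ : ∃ M : ℕ, (M : ℤ) = (n / 2 : ℕ) - d :=
    ⟨((n / 2 : ℕ) - d).toNat, Int.toNat_of_nonneg (by omega)⟩
  obtain ⟨b, hb, hb'⟩ := hm M n (by omega)
  obtain ⟨N, r, eV, eE, hN⟩ := exists_num (n := n) (by omega)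
  have hd : ((n / 2 : ℕ) : ℤ) ≠ N := by omega
  have hcard : (Fintype.card (Eqn n) : ℤ) = (r + 1 : ℕ) := by
    rw [Fintype.card_congr eE, Fintype.card_fin]
  rw [hcard] at hQn
  have h2 : Q (aff k (CovQ P (eqF k eV eE))) ((n / 2 : ℕ) + (r + 1 : ℕ)) :=
    hQ.iso (seqIso P eV eE) (isVariety_seq hP n)
      (isVariety_aff _ (h := finiteType_cov P hP.1 hP.pos _)) _ hQn
  have h3 := hQ.zeros (eqF k eV eE) hP _ hd h2
  have h4 : Q (aff k (Quo k n)) (n / 2 : ℕ) :=
    hQ.iso (affIso (quoEquiv eV eE)) (isVariety_aff _) (isVariety_aff _) _ h3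
  have h5 : Q (aff k (MvPolynomial (Fin M) B)) (n / 2 : ℕ) := by
    refine hQ.ofClopen (affMap ((psi b : Quo k n →ₐ[k] MvPolynomial (Fin M) B) :
      Quo k n →+* MvPolynomial (Fin M) B)
      (AlgHom.comp_algebraMap _)) ?_ ?_ (isVariety_aff _) (isVariety_aff _) _ h4
    · exact IsClosedImmersion.spec_of_surjective _ (psi_surjective hb)
    · exact (isOpenImmersion_SpecMap_iff_of_surjective _ (psi_surjective hb)).2 ⟨_, ker_psi hb'⟩
  exact hQ.bundle (isAffineBundle_triv B M) (isVariety_aff _) (isVariety_aff _) d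
    (n / 2 : ℕ) (by omega) h5

/-- From the members of the sequence in one dimension for each member to all admissible schemes. -/
theorem Transfers.admissible_diag {P : Polynomial k} (hP : HasSimpleRoots P) (hk : IsPrimeField k)
    (h : ∃ᶠ n in Filter.atTop, Q (seq P n) ((n / 2 : ℕ) + Fintype.card (Eqn n)))
    (X : Sch k) (hX : IsAdmissible X) (d : ℤ) : Q X d := by
  obtain ⟨vX, E, f, r, hf, hE, vE⟩ := hX
  obtain ⟨B, _, _, hB, ⟨eB⟩⟩ := exists_aff_iso E vE
  refine hQ.bundle hf vE vX d (d + r) rfl ?_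
  exact hQ.iso eB (isVariety_aff _) vE _ (hQ.affine_diag hP hk h B _)

end Pool.Agent.H854.SQ
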