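import Pool.Agent.H854.AS.Defs

/-!
# Homology with Frobenius and motivic homology over finite fields: definitions
-/

set_option autoImplicit false

open CategoryTheory AlgebraicGeometry

universe u v w

namespace Pool.Agent.H854.SQ

open Pool.Agent.Y138.UC Pool.Agent.H854.AS

variable (k : Type u) [Field k]

/-- The data of a homology theory with Frobenius, motivic homology and cycle classes over a finite
field `k`: `(H.g m).M X n` is the homology `H_{2 n + m}(X, -n)`, with the Frobenius `frob` for
`m = 0`; `(C.g m).M X n` is the higher Chow group `CH_n(X, m)` with coefficients in `F`, so that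
`(C.g 0).M X n` is the group of cycles of dimension `n` modulo rational equivalence; and `cl` is the
cycle class map. -/
structure FTheory (F : Type v) [Field F] where
  H : Sys.{u, v} k F
  C : Sys.{u, v} k F
  cl : ∀ (X : Sch k) (n : ℤ), (C.g 0).M X n →ₗ[F] (H.g 0).M X n
  frob : ∀ (X : Sch k) (n : ℤ), (H.g 0).M X n →ₗ[F] (H.g 0).M X n

variable {k} {F : Type v} [Field F]

/-- The class of a cycle. -/
def FTheory.cls (T : FTheory.{u, v} k F) {X : Sch k} {n : ℤ} (z : (T.C.g 0).M X n) :
    (T.H.g 0).M X n := T.cl X n z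

/-- The Frobenius of a class. -/
def FTheory.fr (T : FTheory.{u, v} k F) {X : Sch k} {n : ℤ} (x : (T.H.g 0).M X n) :
    (T.H.g 0).M X n := T.frob X n x

/-- The homology and the higher Chow groups of the point: `H_{2 n + m}(-n)` vanishes for
`2 n + m ≠ 0`, and there are only cycles of dimension zero. -/
def FTheory.Point (T : FTheory.{u, v} k F) : Prop :=
  (∀ m n : ℤ, m + 2 * n ≠ 0 → Subsingleton ((T.H.g m).M (aff k k) n)) ∧
    ∀ n : ℤ, n ≠ 0 → Subsingleton ((T.C.g 0).M (aff k k) n)

/-- The cycle class map is compatible with push-forward and pull-back, and cycle classes are fixed by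
the Frobenius. -/
def FTheory.CycleNat (T : FTheory.{u, v} k F) : Prop :=
  (∀ {Z X : Sch k} (i : Z ⟶ X) (hi : IsCl i) (n : ℤ), IsVariety X → ∀ x : (T.C.g 0).M Z n,
    T.cls ((T.C.g 0).psh i hi x) = (T.H.g 0).psh i hi (T.cls x)) ∧
  (∀ {E B : Sch k} (f : E ⟶ B) (r : ℕ) (hf : IsFlatDim f r) (n n' : ℤ) (e : n' = n + r),
    IsVariety E → IsVariety B → ∀ x : (T.C.g 0).M B n,
    T.cls ((T.C.g 0).pll f hf e x) = (T.H.g 0).pll f hf e (T.cls x)) ∧
  ∀ (X : Sch k) (n : ℤ) (z : (T.C.g 0).M X n), T.fr (T.cls z) = T.cls z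

/-- Push-forward and pull-back commute with the Frobenius. -/
def FTheory.Equivariant (T : FTheory.{u, v} k F) : Prop :=
  (∀ {Z X : Sch k} (i : Z ⟶ X) (hi : IsCl i) (n : ℤ), IsVariety X → ∀ x : (T.H.g 0).M Z n,
    T.fr ((T.H.g 0).psh i hi x) = (T.H.g 0).psh i hi (T.fr x)) ∧
  ∀ {E B : Sch k} (f : E ⟶ B) (r : ℕ) (hf : IsFlatDim f r) (n n' : ℤ) (e : n' = n + r),
    IsVariety E → IsVariety B → ∀ x : (T.H.g 0).M B n,
    T.fr ((T.H.g 0).pll f hf e x) = (T.H.g 0).pll f hf e (T.fr x)

/-- The properties of the theory that are used. -/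
structure FTheory.IsValid (T : FTheory.{u, v} k F) : Prop where
  homology : T.H.IsHomology
  motivic : T.C.IsHomology
  point : T.Point
  cycle : T.CycleNat
  equivariance : T.Equivariant

/-- The cycle class map in dimension `n` is injective. -/
def FTheory.Inj (T : FTheory.{u, v} k F) (X : Sch k) (n : ℤ) : Prop :=
  ∀ z z' : (T.C.g 0).M X n, T.cls z = T.cls z' → z = z'

/-- Every class in `H_{2 n}(X, -n)` that is fixed by the Frobenius is a cycle class. -/
def FTheory.Surj (T : FTheory.{u, v} k F) (X : Sch k) (n : ℤ) : Prop :=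
  ∀ x : (T.H.g 0).M X n, T.fr x = x → ∃ z : (T.C.g 0).M X n, T.cls z = x

/-- The Frobenius minus the identity. -/
def FTheory.df (T : FTheory.{u, v} k F) {X : Sch k} {n : ℤ} (x : (T.H.g 0).M X n) :
    (T.H.g 0).M X n := T.fr x - x

/-- The eigenvalue `1` of the Frobenius on `H_{2 n}(X, -n)` is semisimple: generalized eigenvectors
are eigenvectors. -/
def FTheory.Semi (T : FTheory.{u, v} k F) (X : Sch k) (n : ℤ) : Prop :=
  ∀ (m : ℕ) (x : (T.H.g 0).M X n), T.df^[m] x = 0 → T.fr x = x

/-- The statement `B` for the scheme `X` and the cycles of dimension `n`: the cycle class map to the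
classes fixed by the Frobenius is bijective, and the eigenvalue `1` is semisimple. -/
def FTheory.B (T : FTheory.{u, v} k F) (X : Sch k) (n : ℤ) : Prop :=
  T.Inj X n ∧ T.Surj X n ∧ T.Semi X n

/-- The statement `B` in all dimensions, for all schemes with the property `S`. -/
def FTheory.BFor (T : FTheory.{u, v} k F) (S : Sch k → Prop) : Prop := ∀ X, S X → ∀ n, T.B X n

/-- The scheme `X` over the extension `K` of `k` as a scheme over `k`. -/
noncomputable def dn (k : Type u) {K : Type u} [Field k] [Field K] [Algebra k K] (X : Sch K) :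
    Sch k := Over.mk (X.hom ≫ Spec.map (CommRingCat.ofHom (algebraMap k K)))

/-- The theory `T'` over the extension `K` of degree `deg` of the finite field `k` belongs to the theory
`T` over `k`: the cycles on a scheme `X` over the field `K` are those on the same scheme over `k`; and
the homology of the scheme over `k` is the `deg`-fold sum of the homology of the scheme over `K`,
permuted cyclically by the Frobenius `φ` over `k`, such that `φ ^ deg` is the Frobenius over `K`:
`x ↦ (j ↦ res (φ ^ j x))` is a bijection to the sequences `f` with `f (j + deg) = Frob f(j)`. -/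
structure FInduced {k K : Type u} [Field k] [Field K] [Algebra k K] {F : Type v} [Field F]
    (T : FTheory.{u, v} k F) (T' : FTheory.{u, v} K F) where
  deg : ℕ
  deg_pos : 0 < deg
  cyc : ∀ (X : Sch K) (n : ℤ), (T.C.g 0).M (dn k X) n → (T'.C.g 0).M X n
  cyc_bij : ∀ (X : Sch K) (n : ℤ), Function.Bijective (cyc X n)
  res : ∀ (X : Sch K) (n : ℤ), (T.H.g 0).M (dn k X) n →ₗ[F] (T'.H.g 0).M X n
  res_cls : ∀ (X : Sch K) (n : ℤ) (z : (T.C.g 0).M (dn k X) n),
    res X n (T.cls z) = T'.cls (cyc X n z)
  inj : ∀ (X : Sch K) (n : ℤ) (x : (T.H.g 0).M (dn k X) n),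
    (∀ j : ℕ, res X n (T.fr^[j] x) = 0) → x = 0
  surj : ∀ (X : Sch K) (n : ℤ) (f : ℕ → (T'.H.g 0).M X n), (∀ j, f (j + deg) = T'.fr (f j)) →
      ∃ x : (T.H.g 0).M (dn k X) n, ∀ j : ℕ, res X n (T.fr^[j] x) = f j

end Pool.Agent.H854.SQ
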