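import Pool.Agent.H854.SQ.Clop
import Pool.Agent.H854.SQ.BDefs

/-!
# The statement `B` can be transferred
-/

set_option autoImplicit false

open CategoryTheory AlgebraicGeometry

universe u v w

namespace Pool.Agent.H854.SQ

open Pool.Agent.Y138.UC Pool.Agent.H854.AS

section Semi

variable {F : Type v} [Field F] {V : Type v} [AddCommGroup V] [Module F V]

theorem semi_of_sq (f : V →ₗ[F] V) (h : ∀ x, f (f x - x) = f x - x → f x = x) (m : ℕ) (x : V)
    (hx : (fun y => f y - y)^[m] x = 0) : f x = x := by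
  induction m generalizing x with
  | zero =>
    have hx : x = 0 := hx
    rw [hx, map_zero]
  | succ m ih =>
    rw [Function.iterate_succ_apply] at hx
    exact h x (ih _ hx)

theorem sq_of_semi (f : V →ₗ[F] V)
    (h : ∀ (m : ℕ) x, (fun y => f y - y)^[m] x = 0 → f x = x) (x : V)
    (hx : f (f x - x) = f x - x) : f x = x := by
  apply h 2 x
  change f (f x - x) - (f x - x) = 0
  rw [hx, sub_self]

end Semi

variable {k : Type u} [Field k] {F : Type v} [Field F] {T : FTheory.{u, v} k F}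

theorem FTheory.IsValid.cl_push (hT : T.IsValid) {Z X : Sch k} (i : Z ⟶ X) (hi : IsCl i) (n : ℤ)
    (vX : IsVariety X) (x : (T.C.g 0).M Z n) :
    T.cl X n ((T.C.g 0).push i hi n x) = (T.H.g 0).push i hi n (T.cl Z n x) :=
  hT.cycle.1 i hi n vX x

theorem FTheory.IsValid.cl_pull (hT : T.IsValid) {E B : Sch k} (f : E ⟶ B) (r : ℕ)
    (hf : IsFlatDim f r) (n n' : ℤ) (e : n' = n + r) (vE : IsVariety E) (vB : IsVariety B)
    (x : (T.C.g 0).M B n) :
    T.cl E n' ((T.C.g 0).pull f r hf n n' e x) = (T.H.g 0).pull f r hf n n' e (T.cl B n x) :=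
  hT.cycle.2.1 f r hf n n' e vE vB x

theorem FTheory.IsValid.frob_cl (hT : T.IsValid) (X : Sch k) (n : ℤ) (z : (T.C.g 0).M X n) :
    T.frob X n (T.cl X n z) = T.cl X n z := hT.cycle.2.2 X n z

theorem FTheory.IsValid.frob_push (hT : T.IsValid) {Z X : Sch k} (i : Z ⟶ X) (hi : IsCl i) (n : ℤ)
    (vX : IsVariety X) (x : (T.H.g 0).M Z n) :
    T.frob X n ((T.H.g 0).push i hi n x) = (T.H.g 0).push i hi n (T.frob Z n x) :=
  hT.equivariance.1 i hi n vX x

theorem FTheory.IsValid.frob_pull (hT : T.IsValid) {E B : Sch k} (f : E ⟶ B) (r : ℕ)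
    (hf : IsFlatDim f r) (n n' : ℤ) (e : n' = n + r) (vE : IsVariety E) (vB : IsVariety B)
    (x : (T.H.g 0).M B n) :
    T.frob E n' ((T.H.g 0).pull f r hf n n' e x) = (T.H.g 0).pull f r hf n n' e (T.frob B n x) :=
  hT.equivariance.2 f r hf n n' e vE vB x

/-- The statement `B`, with the maps written as linear maps. -/
theorem FTheory.b_iff (X : Sch k) (n : ℤ) : T.B X n ↔
    (∀ z, T.cl X n z = 0 → z = 0) ∧ (∀ x, T.frob X n x = x → ∃ z, T.cl X n z = x) ∧
      ∀ x, T.frob X n (T.frob X n x - x) = T.frob X n x - x → T.frob X n x = x := by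
  constructor
  · rintro ⟨h1, h2, h3⟩
    refine ⟨fun z hz => h1 z 0 ?_, h2, sq_of_semi _ h3⟩
    change T.cl X n z = T.cl X n 0
    rw [hz, map_zero]
  · rintro ⟨h1, h2, h3⟩
    refine ⟨fun z z' h => sub_eq_zero.1 (h1 _ ?_), h2, semi_of_sq _ h3⟩
    change T.cl X n z = T.cl X n z' at h
    rw [map_sub, h, sub_self]

theorem b_space (hT : T.IsValid) (N : ℕ) (n : ℤ) (h : n ≠ N) :
    Subsingleton ((T.C.g 0).M (aff k (MvPolynomial (Fin N) k)) n) := by
  have h1 := hT.point.2 (n - N) (by omega)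
  exact ((hT.motivic.good 0).bundleSurj (triv k N) N (.of_bun (isAffineBundle_triv k N)) (n - N) n
    (by ring) (isVariety_aff _) (isVariety_aff _) (isAffineBundle_triv k N)).subsingleton

/-- The statement `B` can be transferred. -/
theorem transfers_b (hT : T.IsValid) : Transfers T.B where
  ofOpen := by
    intro D E Z j hj f d hf b hb e0 vD vE vZ n n' e h
    rw [FTheory.b_iff] at h ⊢
    obtain ⟨h1, h2, h3⟩ := h
    have hp := fun (x : (T.H.g 0).M Z n) => (hT.homology.good 0).pullComp j f b 0 d d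
      (.of_open hj) hf (.of_bun hb) n n' n' e (by simp) e vD vE vZ e0 x
    refine ⟨fun z hz => ?_, fun x hx => ?_, fun x hx => ?_⟩
    · have h4 : (T.C.g 0).pull f d hf n n' e z = 0 := by
        apply h1
        rw [hT.cl_pull f d hf n n' e vE vZ, hz, map_zero]
      apply hT.motivic.bundleInj 0 b d (.of_bun hb) n n' e vD vZ hb
      rw [(hT.motivic.good 0).pullComp j f b 0 d d (.of_open hj) hf (.of_bun hb) n n' n' e
        (by simp) e vD vE vZ e0 z, h4, map_zero, map_zero]
    · obtain ⟨w, hw⟩ := h2 ((T.H.g 0).pull f d hf n n' e x) (by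
        rw [hT.frob_pull f d hf n n' e vE vZ, hx])
      obtain ⟨w', hw'⟩ := (hT.motivic.good 0).bundleSurj b d (.of_bun hb) n n' e vD vZ hb
        ((T.C.g 0).pull j 0 (.of_open hj) n' n' (by simp) w)
      refine ⟨w', ?_⟩
      apply hT.homology.bundleInj 0 b d (.of_bun hb) n n' e vD vZ hb
      rw [← hT.cl_pull b d (.of_bun hb) n n' e vD vZ, hw',
        hT.cl_pull j 0 (.of_open hj) n' n' (by simp) vD vE, hw]
      exact (hp x).symm
    · have h4 := h3 ((T.H.g 0).pull f d hf n n' e x) (by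
        rw [hT.frob_pull f d hf n n' e vE vZ, ← map_sub, hT.frob_pull f d hf n n' e vE vZ, hx])
      rw [hT.frob_pull f d hf n n' e vE vZ] at h4
      apply hT.homology.bundleInj 0 b d (.of_bun hb) n n' e vD vZ hb
      rw [hp, hp, h4]
  ofConfig := by
    intro Z S B C Y V C' C0 B' i j iY jY π πC πV i' j0 b0 a b d r s c N hS n n' e hn h
    have hs : Subsingleton ((T.C.g 0).M S n) := by
      rw [hS]
      exact b_space hT N n hn
    rw [FTheory.b_iff] at h ⊢
    obtain ⟨h1, h2, h3⟩ := h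
    have hcl : ∀ z, T.cl Y n' ((T.C.g 0).push iY c.hY.1 n' ((T.C.g 0).push i' c.hC.1 n' z)) =
        (T.H.g 0).push iY c.hY.1 n' ((T.H.g 0).push i' c.hC.1 n' (T.cl C' n' z)) := fun z => by
      rw [hT.cl_push iY c.hY.1 n' c.vY, hT.cl_push i' c.hC.1 n' c.vC]
    have hfr : ∀ x, T.frob Y n' ((T.H.g 0).push iY c.hY.1 n' ((T.H.g 0).push i' c.hC.1 n' x)) =
        (T.H.g 0).push iY c.hY.1 n' ((T.H.g 0).push i' c.hC.1 n' (T.frob C' n' x)) := fun x => by
      rw [hT.frob_push iY c.hY.1 n' c.vY, hT.frob_push i' c.hC.1 n' c.vC]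
    refine ⟨fun z hz => ?_, fun x hx => ?_, fun x hx => ?_⟩
    · apply c.inj hT.motivic 0 n n' e
      apply h1
      rw [hcl, hz, map_zero, map_zero]
    · obtain ⟨w, hw⟩ := h2 _ (by rw [hfr x, hx])
      obtain ⟨w', rfl⟩ := c.surj hT.motivic 0 n n' e hs w
      refine ⟨w', ?_⟩
      rw [hcl] at hw
      exact sub_eq_zero.1 (c.inj hT.homology 0 n n' e _ (by rw [map_sub, map_sub, hw, sub_self]))
    · have h4 := h3 ((T.H.g 0).push iY c.hY.1 n' ((T.H.g 0).push i' c.hC.1 n' x)) (by
        rw [hfr, ← map_sub, ← map_sub, hfr, hx])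
      rw [hfr, ← sub_eq_zero, ← map_sub, ← map_sub] at h4
      exact sub_eq_zero.1 (c.inj hT.homology 0 n n' e _ h4)
  ofClopen := by
    intro Z X i hc ho vZ vX n h
    rw [FTheory.b_iff] at h ⊢
    obtain ⟨h1, h2, h3⟩ := h
    refine ⟨fun z hz => ?_, fun x hx => ?_, fun x hx => ?_⟩
    · have h4 : (T.C.g 0).push i hc n z = 0 := by
        apply h1
        rw [hT.cl_push i hc n vX, hz, map_zero]
      apply push_id_inj hT.motivic vZ 0 n z
      rw [← pull_push (hT.motivic.good 0) i hc ho vZ vX, h4, map_zero]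
    · obtain ⟨y, rfl⟩ := push_id_surj hT.homology vZ 0 n x
      have hy : T.frob Z n y = y := by
        rw [hT.frob_push (𝟙 Z) (isCl_id Z) n vZ, ← sub_eq_zero, ← map_sub] at hx
        exact sub_eq_zero.1 (push_id_inj hT.homology vZ 0 n _ hx)
      obtain ⟨w, hw⟩ := h2 ((T.H.g 0).push i hc n y) (by rw [hT.frob_push i hc n vX, hy])
      refine ⟨(T.C.g 0).pull i 0 (.of_open ho) n n (by simp) w, ?_⟩
      rw [hT.cl_pull i 0 (.of_open ho) n n (by simp) vZ vX, hw,
        pull_push (hT.homology.good 0) i hc ho vZ vX]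
    · have h4 := h3 ((T.H.g 0).push i hc n x) (by
        rw [hT.frob_push i hc n vX, ← map_sub, hT.frob_push i hc n vX, hx])
      rw [hT.frob_push i hc n vX, ← sub_eq_zero, ← map_sub] at h4
      apply sub_eq_zero.1
      apply push_id_inj hT.homology vZ 0 n
      rw [← pull_push (hT.homology.good 0) i hc ho vZ vX, h4, map_zero]

section Induced

variable {K : Type u} [Field K] [Algebra k K] {T' : FTheory.{u, v} K F}

theorem fr_iterate (X : Sch k) (n : ℤ) (j : ℕ) (x : (T.H.g 0).M X n) :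
    T.fr^[j] x = ((T.frob X n) ^ j) x := by
  rw [Module.End.pow_apply]
  rfl

theorem isFixed_iterate {X : Sch k} {n : ℤ} {x : (T.H.g 0).M X n} (hx : T.frob X n x = x) (j : ℕ) :
    T.fr^[j] x = x := Function.iterate_fixed hx j

/-- The statement `B` for a scheme over `K` follows from that for the scheme over `k`. -/
theorem FInduced.b [CharZero F] (hT : T.IsValid) (I : FInduced T T') (X : Sch K) (n : ℤ)
    (h : T.B (dn k X) n) : T'.B X n := by
  have h' := h
  rw [FTheory.b_iff] at h' ⊢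
  obtain ⟨h1, h2, h3⟩ := h'
  have hinj : ∀ x y : (T.H.g 0).M (dn k X) n,
      (∀ j : ℕ, I.res X n (T.fr^[j] x) = I.res X n (T.fr^[j] y)) → x = y := by
    intro x y hxy
    refine sub_eq_zero.1 (I.inj X n _ fun j => ?_)
    have h4 := hxy j
    rw [fr_iterate, fr_iterate] at h4
    rw [fr_iterate, map_sub, map_sub, h4, sub_self]
  refine ⟨fun z hz => ?_, fun v hv => ?_, fun v hv => ?_⟩
  · obtain ⟨a, rfl⟩ := (I.cyc_bij X n).2 z
    obtain ⟨a0, ha0⟩ := (I.cyc_bij X n).2 0
    have h4 : a = a0 := h.1 a a0 (hinj _ _ fun j => by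
      have h5 : T.fr^[j] (T.cls a) = T.cls a := isFixed_iterate (hT.frob_cl _ n a) j
      have h6 : T.fr^[j] (T.cls a0) = T.cls a0 := isFixed_iterate (hT.frob_cl _ n a0) j
      rw [h5, h6, I.res_cls, I.res_cls, ha0]
      change T'.cl X n _ = T'.cl X n 0
      rw [hz, map_zero])
    rw [h4, ha0]
  · obtain ⟨x, hx⟩ := I.surj X n (fun _ => v) (fun _ => hv.symm)
    have h4 : T.frob _ n x = x := hinj _ _ fun j => by
      have h5 : T.fr^[j] (T.frob (dn k X) n x) = T.fr^[j + 1] x := rfl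
      rw [h5, hx, hx]
    obtain ⟨z, hz⟩ := h2 x h4
    refine ⟨I.cyc X n z, ?_⟩
    have h5 : T'.cls (I.cyc X n z) = v := by
      rw [← I.res_cls]
      have h6 := hx 0
      have h7 : T.cls z = x := hz
      rw [h7]
      exact h6
    exact h5
  · set w := T'.frob X n v - v with hw
    have hw1 : T'.frob X n v = v + w := by rw [hw]; abel
    have hd : (I.deg : F) ≠ 0 := Nat.cast_ne_zero.2 I.deg_pos.ne'
    obtain ⟨x, hx⟩ := I.surj X n (fun j => v + ((j : F) / I.deg) • w) (fun j => by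
      change _ = T'.frob X n _
      rw [map_add, map_smul, hv, hw1, Nat.cast_add, add_div, div_self hd, add_smul, one_smul]
      abel)
    have hx1 : ∀ j, I.res X n (T.fr^[j] (T.frob _ n x - x)) = ((1 : F) / I.deg) • w := by
      intro j
      have h5 : T.fr^[j] (T.frob (dn k X) n x) = T.fr^[j + 1] x := rfl
      rw [fr_iterate, map_sub, ← fr_iterate, ← fr_iterate, h5, map_sub, hx, hx, Nat.cast_add,
        add_div, add_smul]
      rw [Nat.cast_one]
      abel
    have h4 : T.frob _ n (T.frob _ n x - x) = T.frob _ n x - x := hinj _ _ fun j => by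
      have h5 : T.fr^[j] (T.frob (dn k X) n (T.frob _ n x - x)) =
        T.fr^[j + 1] (T.frob _ n x - x) := rfl
      rw [h5, hx1, hx1]
    have h5 := h3 x h4
    have h6 := hx1 0
    rw [h5, sub_self, fr_iterate, map_zero, map_zero] at h6
    have h7 : w = 0 := by
      have h8 := congrArg (fun y => (I.deg : F) • y) h6
      simp only [smul_zero, smul_smul, mul_one_div_cancel hd, one_smul] at h8
      exact h8.symm
    rw [hw1, h7, add_zero]

end Induced

end Pool.Agent.H854.SQ
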