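import Pool.Agent.H854.SQ.Red
import Pool.Agent.H854.AS.State

/-!
# The coverings `y ^ p - y = φ` are finite étale
-/

set_option autoImplicit false

open CategoryTheory AlgebraicGeometry

universe u v w

namespace Pool.Agent.H854.SQ

open Pool.Agent.Y138.UC Pool.Agent.H854.AS

variable {k : Type u} [Field k]

/-- The covering `P(y) = φ` of `Spec R` is finite étale. -/
def IsFiniteEtale (P : Polynomial k) {R : Type u} [CommRing R] [Algebra k R] (φ : R) : Prop :=
  Algebra.Etale R (Cov P φ) ∧ Module.Finite R (Cov P φ)

theorem isFiniteEtale_pol (p : ℕ) [Fact p.Prime] [CharP k p] {R : Type u} [CommRing R]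
    [Algebra k R] (φ : R) : IsFiniteEtale (pol k p) φ := by
  have hP := (pol_prime (k := k) p).1
  have hd := (pol_prime (k := k) p).pos
  constructor
  · have h1 := etale_piece (pol k p) hP hd φ
    set s : Cov (pol k p) φ := AdjoinRoot.mk ((pol k p).map (algebraMap k R) - Polynomial.C φ)
        ((Polynomial.derivative (pol k p)).map (algebraMap k R)) with hs
    have hu : IsUnit s := by
      rw [hs, derivative_pol, Polynomial.map_C, AdjoinRoot.mk_C]
      exact ((isUnit_one.neg : IsUnit (-1 : k)).map (algebraMap k R)).map _
    have e : Cov (pol k p) φ ≃ₐ[Cov (pol k p) φ] Localization.Away s :=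
      IsLocalization.atUnit (Cov (pol k p) φ) (Localization.Away s) s hu
    exact Algebra.Etale.of_equiv (e.restrictScalars R).symm
  · have hm := covPoly_monic (pol k p) φ hP hd
    exact hm.finite_adjoinRoot

end Pool.Agent.H854.SQ
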