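import Pool.Agent.H854.SQ.Prog

/-!
# Every algebra of finite type over a prime field has a presentation by the relations
# `x y = z`, `x + y = z` and `x = 1`
-/

set_option autoImplicit false

open MvPolynomial

universe u v

namespace Pool.Agent.H854.SQ

variable {k : Type u} [Field k]

section

variable {A : Type v} [CommRing A] [Algebra k A]

/-- The elements that can be added to a family. -/
def Reach (k : Type u) [Field k] {A : Type v} [CommRing A] [Algebra k A] (S : Set A) (a : A) :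
    Prop :=
  ∀ (ι : Type) (_ : Finite ι) (b : ι → A), Pres k b → S ⊆ Set.range b →
    ∃ (κ : Type) (_ : Finite κ) (c : κ → A), Pres k c ∧ Set.range b ⊆ Set.range c ∧
      a ∈ Set.range c

omit [CommRing A] in
theorem range_adj {ι : Type} (b : ι → A) (a : A) : Set.range b ⊆ Set.range (adj b a) := by
  rintro _ ⟨i, rfl⟩
  exact ⟨some i, rfl⟩

omit [CommRing A] in
theorem mem_range_adj {ι : Type} (b : ι → A) (a : A) : a ∈ Set.range (adj b a) := ⟨none, rfl⟩

theorem reach_mem {S : Set A} {a : A} (ha : a ∈ S) : Reach k S a :=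
  fun ι h b hb hS => ⟨ι, h, b, hb, le_rfl, hS ha⟩

theorem reach_one (S : Set A) : Reach k S 1 := fun ι _ _ hb _ =>
  ⟨Option ι, inferInstance, _, hb.one, range_adj _ _, mem_range_adj _ _⟩

theorem Reach.add {S : Set A} {x y : A} (hx : Reach k S x) (hy : Reach k S y) :
    Reach k S (x + y) := by
  intro ι h b hb hS
  obtain ⟨κ, hκ, c, hc, hbc, ⟨i, hi⟩⟩ := hx ι h b hb hS
  obtain ⟨μ, hμ, d, hd, hcd, ⟨j, hj⟩⟩ := hy κ hκ c hc (hS.trans hbc)
  obtain ⟨i', hi'⟩ := hcd ⟨i, hi⟩
  refine ⟨Option μ, inferInstance, _, hd.add i' j, (hbc.trans hcd).trans (range_adj _ _), ?_⟩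
  rw [hi', hj]
  exact mem_range_adj _ _

theorem Reach.sub {S : Set A} {x y : A} (hx : Reach k S x) (hy : Reach k S y) :
    Reach k S (x - y) := by
  intro ι h b hb hS
  obtain ⟨κ, hκ, c, hc, hbc, ⟨i, hi⟩⟩ := hx ι h b hb hS
  obtain ⟨μ, hμ, d, hd, hcd, ⟨j, hj⟩⟩ := hy κ hκ c hc (hS.trans hbc)
  obtain ⟨i', hi'⟩ := hcd ⟨i, hi⟩
  refine ⟨Option μ, inferInstance, _, hd.sub i' j, (hbc.trans hcd).trans (range_adj _ _), ?_⟩
  rw [hi', hj]
  exact mem_range_adj _ _

theorem Reach.mul {S : Set A} {x y : A} (hx : Reach k S x) (hy : Reach k S y) :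
    Reach k S (x * y) := by
  intro ι h b hb hS
  obtain ⟨κ, hκ, c, hc, hbc, ⟨i, hi⟩⟩ := hx ι h b hb hS
  obtain ⟨μ, hμ, d, hd, hcd, ⟨j, hj⟩⟩ := hy κ hκ c hc (hS.trans hbc)
  obtain ⟨i', hi'⟩ := hcd ⟨i, hi⟩
  refine ⟨Option μ, inferInstance, _, hd.mul i' j, (hbc.trans hcd).trans (range_adj _ _), ?_⟩
  rw [hi', hj]
  exact mem_range_adj _ _

theorem reach_int (S : Set A) (a : ℤ) : Reach k S ((a : ℤ) : A) := by
  induction a with
  | zero => simpa using (reach_one (k := k) S).sub (reach_one S)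
  | succ n ih => simpa using ih.add (reach_one S)
  | pred n ih => simpa using ih.sub (reach_one S)

end

/-- The polynomials with integral coefficients can be reached from the variables. -/
theorem reach_poly {n : ℕ} (g : MvPolynomial (Fin n) ℤ) :
    Reach k (Set.range (X : Fin n → MvPolynomial (Fin n) k))
      (MvPolynomial.map (Int.castRingHom k) g) := by
  induction g using MvPolynomial.induction_on with
  | C a =>
    have h := reach_int (k := k) (Set.range (X : Fin n → MvPolynomial (Fin n) k)) a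
    rw [map_C]
    simpa using h
  | add p q hp hq =>
    rw [map_add]
    exact hp.add hq
  | mul_X p i hp =>
    rw [map_mul, map_X]
    exact hp.mul (reach_mem ⟨i, rfl⟩)

theorem pres_X (n : ℕ) : Pres k (X : Fin n → MvPolynomial (Fin n) k) := by
  intro f hf
  rw [aeval_X_left_apply] at hf
  rw [hf]
  exact zero_mem _

/-- A finite set of polynomials with integral coefficients. -/
theorem exists_pres {n : ℕ} (L : List (MvPolynomial (Fin n) ℤ)) :
    ∃ (κ : Type) (_ : Finite κ) (c : κ → MvPolynomial (Fin n) k), Pres k c ∧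
      Set.range (X : Fin n → MvPolynomial (Fin n) k) ⊆ Set.range c ∧
      ∀ g ∈ L, MvPolynomial.map (Int.castRingHom k) g ∈ Set.range c := by
  induction L with
  | nil => exact ⟨Fin n, inferInstance, X, pres_X n, le_rfl, by simp⟩
  | cons g L ih =>
    obtain ⟨κ, hκ, c, hc, hX, hL⟩ := ih
    obtain ⟨μ, hμ, d, hd, hcd, hg⟩ := reach_poly g κ hκ c hc hX
    refine ⟨μ, hμ, d, hd, hX.trans hcd, ?_⟩
    intro g' hg'
    rcases List.mem_cons.1 hg' with rfl | h
    · exact hg
    · exact hcd (hL g' h)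

/-- Denominators. -/
theorem exists_denom (hk : IsPrimeField k) {n : ℕ} (g : MvPolynomial (Fin n) k) :
    ∃ (d : k) (g' : MvPolynomial (Fin n) ℤ), d ≠ 0 ∧ (∃ a : ℤ, d = a) ∧
      C d * g = MvPolynomial.map (Int.castRingHom k) g' := by
  induction g using MvPolynomial.induction_on with
  | C a =>
    obtain ⟨x, y, hy, rfl⟩ := hk a
    refine ⟨y, C x, hy, ⟨y, rfl⟩, ?_⟩
    rw [← C_mul, mul_div_cancel₀ _ hy, map_C]
    rfl
  | add p q hp hq =>
    obtain ⟨d, p', hd, ⟨a, rfl⟩, hp'⟩ := hp
    obtain ⟨e, q', he, ⟨b, rfl⟩, hq'⟩ := hq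
    refine ⟨a * b, C b * p' + C a * q', mul_ne_zero hd he, ⟨a * b, by push_cast; rfl⟩, ?_⟩
    rw [map_add, map_mul (MvPolynomial.map (Int.castRingHom k)) (C b) p',
      map_mul (MvPolynomial.map (Int.castRingHom k)) (C a) q', map_C, map_C,
      ← hp', ← hq', C_mul]
    simp only [eq_intCast]
    ring
  | mul_X p i hp =>
    obtain ⟨d, p', hd, hd', hp'⟩ := hp
    refine ⟨d, p' * X i, hd, hd', ?_⟩
    rw [map_mul, map_X, ← hp', mul_assoc]

variable {B : Type v} [CommRing B] [Algebra k B]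

theorem surjective_adj {ι : Type} (b : ι → B) (a : B)
    (hb : Function.Surjective (aeval b : MvPolynomial ι k →ₐ[k] B)) :
    Function.Surjective (aeval (adj b a) : MvPolynomial (Option ι) k →ₐ[k] B) := by
  intro x
  obtain ⟨f, rfl⟩ := hb x
  exact ⟨rename some f, aeval_adj b a f⟩

theorem surjective_equiv {ι κ : Type} (e : κ ≃ ι) (b : ι → B)
    (hb : Function.Surjective (aeval b : MvPolynomial ι k →ₐ[k] B)) :
    Function.Surjective (aeval (b ∘ e) : MvPolynomial κ k →ₐ[k] B) := by
  intro x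
  obtain ⟨f, rfl⟩ := hb x
  refine ⟨rename e.symm f, ?_⟩
  rw [aeval_rename]
  congr 2
  funext i
  simp

/-- The presentations of an algebra of finite type over a prime field. -/
theorem exists_fin (hk : IsPrimeField k) [hB : Algebra.FiniteType k B] :
    ∃ m₀ : ℕ, ∀ m, m₀ ≤ m → ∃ b : Fin m → B,
      Function.Surjective (aeval b : MvPolynomial (Fin m) k →ₐ[k] B) ∧ Pres k b := by
  classical
  obtain ⟨n, f, hf⟩ := Algebra.FiniteType.iff_quotient_mvPolynomial''.1 hB
  obtain ⟨G, hG⟩ := (IsNoetherian.noetherian (RingHom.ker f) : (RingHom.ker f).FG)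
  choose d g' hd hd' hg' using fun g : MvPolynomial (Fin n) k => exists_denom hk g
  obtain ⟨κ, hκ, c, hc, hX, hL⟩ := exists_pres (k := k) (G.toList.map g')
  have hcs : Function.Surjective (aeval c : MvPolynomial κ k →ₐ[k] MvPolynomial (Fin n) k) := by
    rw [← AlgHom.range_eq_top, eq_top_iff, ← adjoin_range_X, Algebra.adjoin_le_iff]
    rintro _ ⟨i, rfl⟩
    obtain ⟨j, hj⟩ := hX ⟨i, rfl⟩
    exact ⟨X j, by rw [← hj]; exact aeval_X _ _⟩
  have hcomp : (aeval (f ∘ c) : MvPolynomial κ k →ₐ[k] B) = f.comp (aeval c) := by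
    refine MvPolynomial.algHom_ext fun i => ?_
    rw [AlgHom.comp_apply, aeval_X, aeval_X]
    rfl
  have hfc : ∀ h : MvPolynomial κ k, aeval (f ∘ c) h = f (aeval c h) := fun h =>
    DFunLike.congr_fun hcomp h
  have hbs : Function.Surjective (aeval (f ∘ c) : MvPolynomial κ k →ₐ[k] B) := by
    intro x
    obtain ⟨y, rfl⟩ := hf x
    obtain ⟨z, rfl⟩ := hcs y
    exact ⟨z, hfc z⟩
  have hbP : Pres k (f ∘ c) := by
    intro h hh
    rw [hfc] at hh
    set J := Ideal.span (relPoly k '' holds k (f ∘ c)) with hJ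
    have h1 : RingHom.ker f ≤ J.map (aeval c : MvPolynomial κ k →ₐ[k] MvPolynomial (Fin n) k) := by
      have hG' : Ideal.span (G : Set (MvPolynomial (Fin n) k)) = RingHom.ker f := hG
      rw [← hG', Ideal.span_le]
      intro g hg
      obtain ⟨j, hj⟩ := hL (g' g) (List.mem_map.2 ⟨g, Finset.mem_toList.2 hg, rfl⟩)
      have hfg : f g = 0 := by
        have : g ∈ RingHom.ker f := by
          rw [← hG']
          exact Ideal.subset_span hg
        exact this
      have h2 : (X j : MvPolynomial κ k) ∈ J := by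
        have h3 : relPoly k (.inr (.inl (j, j, j)) : Rel κ) ∈ J := by
          refine Ideal.subset_span ⟨_, ?_, rfl⟩
          change aeval (f ∘ c) (relPoly k (.inr (.inl (j, j, j)) : Rel κ)) = 0
          rw [hfc, relPoly, map_sub, map_add, aeval_X, hj, ← hg']
          simp [hfg]
        rw [relPoly] at h3
        simpa using h3
      have h4 : aeval c (X j : MvPolynomial κ k) ∈
          J.map (aeval c : MvPolynomial κ k →ₐ[k] MvPolynomial (Fin n) k) :=
        Ideal.mem_map_of_mem _ h2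
      rw [aeval_X, hj, ← hg'] at h4
      have h5 := Ideal.mul_mem_left (J.map (aeval c : MvPolynomial κ k →ₐ[k] _)) (C (d g)⁻¹) h4
      rw [← mul_assoc, ← C_mul, inv_mul_cancel₀ (hd g), C_1, one_mul] at h5
      exact h5
    obtain ⟨h', hh', he⟩ := (Ideal.mem_map_iff_of_surjective _ hcs).1 (h1 hh)
    have h2 : aeval c (h - h') = 0 := by
      rw [map_sub, sub_eq_zero]
      exact he.symm
    have h3 : Ideal.span (relPoly k '' holds k c) ≤ J := by
      refine Ideal.span_mono (Set.image_mono fun r hr => ?_)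
      change aeval (f ∘ c) (relPoly k r) = 0
      rw [hfc, show aeval c (relPoly k r) = 0 from hr, map_zero]
    have h4 := J.add_mem (h3 (hc _ h2)) hh'
    rwa [sub_add_cancel] at h4
  -- padding
  have := Fintype.ofFinite κ
  refine ⟨Fintype.card κ, fun m hm => ?_⟩
  induction m, hm using Nat.le_induction with
  | base => exact ⟨_, surjective_equiv (Fintype.equivFin κ).symm _ hbs,
      hbP.equiv (Fintype.equivFin κ).symm⟩
  | succ m _ ih =>
    obtain ⟨b, h1, h2⟩ := ih
    exact ⟨_, surjective_equiv (finSuccEquiv m) _ (surjective_adj b 1 h1),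
      (h2.one).equiv (finSuccEquiv m)⟩

end Pool.Agent.H854.SQ
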