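import Pool.Agent.H854.AS.Main
import Pool.Agent.H854.SQ.Univ

/-!
# Statements that can be transferred to the members of one sequence
-/

set_option autoImplicit false

open CategoryTheory AlgebraicGeometry

universe u v w

namespace Pool.Agent.H854.SQ

open Pool.Agent.Y138.UC Pool.Agent.H854.AS

variable {k : Type u} [Field k]

/-- A statement `Q X n` about the schemes `X` over `k` and the dimensions `n` which can be
transferred. -/
structure Transfers (Q : Sch k → ℤ → Prop) : Prop where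
  ofOpen : ∀ {D E Z : Sch k} {j : D ⟶ E} (_ : IsOp j) {f : E ⟶ Z} {d : ℕ} (_ : IsFlatDim f d)
    {b : D ⟶ Z} (_ : IsBun b d) (_ : j ≫ f = b), IsVariety D → IsVariety E → IsVariety Z →
    ∀ n n' : ℤ, n' = n + d → Q E n' → Q Z n
  ofConfig : ∀ {Z S B C Y V C' C0 B' : Sch k} {i : Z ⟶ S} {j : B ⟶ S} {iY : C ⟶ Y} {jY : V ⟶ Y}
    {π : Y ⟶ S} {πC : C ⟶ Z} {πV : V ⟶ B} {i' : C' ⟶ C} {j0 : C0 ⟶ C} {b0 : C0 ⟶ Z} {a : V ⟶ B'}
    {b : B' ⟶ B} {d r s : ℕ}, Config i j iY jY π πC πV i' j0 b0 a b d r s →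
    ∀ N : ℕ, S = aff k (MvPolynomial (Fin N) k) → ∀ n n' : ℤ, n' = n + d → n ≠ N →
      Q Y n' → Q C' n'
  ofClopen : ∀ {Z X : Sch k} (i : Z ⟶ X), IsCl i → IsOp i → IsVariety Z → IsVariety X → ∀ n,
    Q X n → Q Z n

variable {Q : Sch k → ℤ → Prop} (hQ : Transfers Q)
include hQ

theorem Transfers.bundle {E Z : Sch k} {b : E ⟶ Z} {d : ℕ} (hb : IsBun b d)
    (vE : IsVariety E) (vZ : IsVariety Z) (n n' : ℤ) (e : n' = n + d) (h : Q E n') :
    Q Z n := by
  refine hQ.ofOpen (j := 𝟙 E) ?_ (.of_bun hb) hb (Category.id_comp b) vE vE vZ n n' e h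
  change IsOpenImmersion (𝟙 E.left)
  infer_instance

theorem Transfers.iso {X Y : Sch k} (e : X ≅ Y) (vX : IsVariety X) (vY : IsVariety Y) (n : ℤ)
    (h : Q X n) : Q Y n := by
  have h1 : IsIso e.hom.left := inferInstanceAs (IsIso ((Over.forget _).map e.hom))
  exact hQ.bundle (b := e.hom) (d := 0) (isAffineBundle_of_isIso _) vX vY n n (by simp) h

section

variable {N r : ℕ} (q : Fin (r + 1) → MvPolynomial (Fin N) k)

/-- From a covering to the common zeros of the `qᵢ`. -/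
theorem Transfers.zeros {P : Polynomial k} (hP : HasSimpleRoots P)
    (n : ℤ) (hn : n ≠ N) (h : Q (aff k (CovQ P q)) (n + (r + 1 : ℕ))) :
    Q (aff k (Az q)) n := by
  obtain ⟨hPm, c, c', R, hc, hPQ, hQc, hQc'⟩ := hP
  have hQ0 : R ≠ 0 := by
    rintro rfl
    simp at hQc
  have hQm : ((Polynomial.X - Polynomial.C c') * R).Monic := by
    rw [hPQ] at hPm
    exact (Polynomial.monic_X_sub_C c).of_mul_monic_left hPm
  have hQ1 : ((Polynomial.X - Polynomial.C c') * R).eval c ≠ 0 := by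
    rw [Polynomial.eval_mul, Polynomial.eval_sub, Polynomial.eval_X, Polynomial.eval_C]
    exact mul_ne_zero (sub_ne_zero.2 hc) hQc
  have hdQ : 0 < ((Polynomial.X - Polynomial.C c') * R).natDegree := natDegree_pos_of_mul hQ0
  have hdP : 0 < P.natDegree := by
    rw [hPQ]
    exact natDegree_pos_of_mul (mul_ne_zero (Polynomial.X_sub_C_ne_zero c') hQ0)
  have cfg := config P _ hPm hdP c hPQ hQ1 q hdQ hQm
  have h1 := hQ.ofConfig cfg N rfl n (n + (r + 1 : ℕ)) rfl hn h
  have h2 := covPt_spec ((Polynomial.X - Polynomial.C c') * R) R c' rfl (At (Az q) r) hQc'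
  refine hQ.ofOpen (j := affMap (covPt _ c' (At (Az q) r)
    (eval_zero_of_mul _ R c' rfl)) (covPt_alg _ _ _ _)) h2.1
    (isFlatDim_piM _ hQm hdQ (0 : At (Az q) r)) (isAffineBundle_triv (Az q) (r + 1)) ?_
    (isVariety_aff _) (isVariety_aff _ (h := finiteType_cov _ hQm hdQ _)) (isVariety_aff _) n _
    rfl h1
  refine Over.OverMorphism.ext ?_
  change Spec.map (CommRingCat.ofHom (covPt _ c' (At (Az q) r) _)) ≫
    Spec.map (CommRingCat.ofHom (piR _ (0 : At (Az q) r))) =
    Spec.map (CommRingCat.ofHom MvPolynomial.C)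
  rw [← Spec.map_comp, ← CommRingCat.ofHom_comp]
  congr 2
  refine RingHom.ext fun x => ?_
  rw [RingHom.comp_apply, piR, RingHom.comp_apply, covPt_of]

end

omit hQ

section Seq

/-- The covering `P(y) = ∑ tₑ (equation e)` belonging to the universal system of size `n`. -/
noncomputable def seq (P : Polynomial k) (n : ℕ) : Sch k := aff k (Cov P (univ k n))

variable (k) in
/-- The equations with numbered variables. -/
noncomputable def eqF {n N r : ℕ} (eV : Var n ≃ Fin N) (eE : Eqn n ≃ Fin (r + 1)) :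
    Fin (r + 1) → MvPolynomial (Fin N) k := fun i =>
  MvPolynomial.rename eV (eqn k (eE.symm i))

variable (k) in
/-- Renumbering the variables. -/
noncomputable def renE {n N r : ℕ} (eV : Var n ≃ Fin N) (eE : Eqn n ≃ Fin (r + 1)) :
    MvPolynomial (Eqn n ⊕ Var n) k ≃ₐ[k] MvPolynomial (Fin (r + 1)) (MvPolynomial (Fin N) k) :=
  (MvPolynomial.renameEquiv k (Equiv.sumCongr eE eV)).trans
    (MvPolynomial.sumAlgEquiv k (Fin (r + 1)) (Fin N))

theorem renE_univ {n N r : ℕ} (eV : Var n ≃ Fin N) (eE : Eqn n ≃ Fin (r + 1)) :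
    renE k eV eE (univ k n) = phi (eqF k eV eE) := by
  rw [renE, AlgEquiv.trans_apply, univ, map_sum, map_sum, phi]
  refine Fintype.sum_equiv eE _ _ fun e => ?_
  rw [map_mul, map_mul, MvPolynomial.renameEquiv_apply, MvPolynomial.rename_X,
    MvPolynomial.renameEquiv_apply, MvPolynomial.rename_rename]
  have h1 : MvPolynomial.sumAlgEquiv k (Fin (r + 1)) (Fin N)
      (MvPolynomial.X ((Equiv.sumCongr eE eV) (Sum.inl e))) = MvPolynomial.X (eE e) := by
    change MvPolynomial.sumAlgEquiv k (Fin (r + 1)) (Fin N) (MvPolynomial.X (Sum.inl (eE e))) = _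
    simp
  have h2 : MvPolynomial.sumAlgEquiv k (Fin (r + 1)) (Fin N)
      (MvPolynomial.rename ((Equiv.sumCongr eE eV) ∘ Sum.inr) (eqn k e)) =
      MvPolynomial.C (eqF k eV eE (eE e)) := by
    have h3 : ((Equiv.sumCongr eE eV) ∘ Sum.inr : Var n → Fin (r + 1) ⊕ Fin N) =
        Sum.inr ∘ eV := rfl
    rw [h3, ← MvPolynomial.rename_rename, ← sum_symm_C, AlgEquiv.apply_symm_apply, eqF,
      Equiv.symm_apply_apply]
  rw [h1, h2, mul_comm]

/-- The ring of the universal system with numbered variables. -/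
noncomputable def quoEquiv {n N r : ℕ} (eV : Var n ≃ Fin N) (eE : Eqn n ≃ Fin (r + 1)) :
    Az (eqF k eV eE) ≃ₐ[k] Quo k n :=
  (Ideal.quotientEquivAlg (ideal k n) (Ideal.span (Set.range (eqF k eV eE)))
    (MvPolynomial.renameEquiv k eV) (by
      rw [ideal, Ideal.map_span, ← Set.range_comp]
      congr 1
      ext p
      constructor
      · rintro ⟨i, rfl⟩
        exact ⟨eE.symm i, rfl⟩
      · rintro ⟨e, rfl⟩
        exact ⟨eE e, by rw [eqF, Equiv.symm_apply_apply]; rfl⟩)).symm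

end Seq

end Pool.Agent.H854.SQ
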