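import Pool.Agent.H854.SQ.UDefs

/-!
# Presentations of algebras by the relations `x y = z`, `x + y = z` and `x = 1`
-/

set_option autoImplicit false

open MvPolynomial

universe u v

namespace Pool.Agent.H854.SQ

/-- The polynomial of a relation. -/
noncomputable def relPoly (k : Type u) [CommRing k] {ι : Type} : Rel ι → MvPolynomial ι k
  | .inl (i, j, l) => X i * X j - X l
  | .inr (.inl (i, j, l)) => X i + X j - X l
  | .inr (.inr i) => X i - 1

/-- Renaming the variables of a relation. -/
def Rel.map {ι κ : Type} (f : ι → κ) : Rel ι → Rel κ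
  | .inl (i, j, l) => .inl (f i, f j, f l)
  | .inr (.inl (i, j, l)) => .inr (.inl (f i, f j, f l))
  | .inr (.inr i) => .inr (.inr (f i))

variable {k : Type u} [Field k] {A : Type v} [CommRing A] [Algebra k A]

theorem rename_relPoly {ι κ : Type} (f : ι → κ) (r : Rel ι) :
    rename f (relPoly k r) = relPoly k (r.map f) := by
  rcases r with ⟨i, j, l⟩ | ⟨i, j, l⟩ | i <;> simp [relPoly, Rel.map]

/-- The relations that hold for the family `b`. -/
def holds (k : Type u) [Field k] {A : Type v} [CommRing A] [Algebra k A] {ι : Type} (b : ι → A) :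
    Set (Rel ι) := {r | aeval b (relPoly k r) = 0}

/-- The relations of the three kinds between the `b i` generate all relations. -/
def Pres (k : Type u) [Field k] {A : Type v} [CommRing A] [Algebra k A] {ι : Type} (b : ι → A) :
    Prop := ∀ f : MvPolynomial ι k, aeval b f = 0 → f ∈ Ideal.span (relPoly k '' holds k b)

theorem span_le_of_holds {ι : Type} (b : ι → A) {f : MvPolynomial ι k}
    (hf : f ∈ Ideal.span (relPoly k '' holds k b)) : aeval b f = 0 := by
  have h : Ideal.span (relPoly k '' holds k b) ≤ RingHom.ker (aeval b : MvPolynomial ι k →ₐ[k] A) := by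
    rw [Ideal.span_le]
    rintro _ ⟨r, hr, rfl⟩
    exact hr
  exact h hf

/-- The family `b` with one more element `a`. -/
def adj {ι : Type} (b : ι → A) (a : A) : Option ι → A := fun o => o.elim a b

omit [CommRing A] in
@[simp] theorem adj_none {ι : Type} (b : ι → A) (a : A) : adj b a none = a := rfl

omit [CommRing A] in
@[simp] theorem adj_some {ι : Type} (b : ι → A) (a : A) (i : ι) : adj b a (some i) = b i := rfl

theorem aeval_adj {ι : Type} (b : ι → A) (a : A) (f : MvPolynomial ι k) :
    aeval (adj b a) (rename some f) = aeval b f := by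
  rw [aeval_rename]
  rfl

theorem mem_holds_map {ι : Type} (b : ι → A) (a : A) {r : Rel ι} (hr : r ∈ holds k b) :
    r.map some ∈ holds k (adj b a) := by
  change aeval (adj b a) (relPoly k (r.map some)) = 0
  rw [← rename_relPoly, aeval_adj]
  exact hr

theorem rename_mem {ι : Type} (b : ι → A) (a : A) {f : MvPolynomial ι k}
    (hf : f ∈ Ideal.span (relPoly k '' holds k b)) :
    rename some f ∈ Ideal.span (relPoly k '' holds k (adj b a)) := by
  have h : Ideal.span (relPoly k '' holds k b) ≤
      (Ideal.span (relPoly k '' holds k (adj b a))).comap (rename some : _ →ₐ[k] _) := by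
    rw [Ideal.span_le]
    rintro _ ⟨r, hr, rfl⟩
    rw [SetLike.mem_coe, Ideal.mem_comap, rename_relPoly]
    exact Ideal.subset_span ⟨_, mem_holds_map b a hr, rfl⟩
  exact h hf

/-- Adding an element that is a polynomial in the others, if the new variable is congruent to the
polynomial modulo the relations. -/
theorem Pres.of_congr {ι : Type} {b : ι → A} (hb : Pres k b) (a : A) (g : MvPolynomial ι k)
    (hg : X none - rename some g ∈ Ideal.span (relPoly k '' holds k (adj b a))) :
    Pres k (adj b a) := by
  intro f hf
  set I := Ideal.span (relPoly k '' holds k (adj b a)) with hI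
  -- every polynomial is congruent to one in the old variables
  set σ : MvPolynomial (Option ι) k →ₐ[k] MvPolynomial ι k :=
    aeval (fun o : Option ι => o.elim g X) with hσ
  have h1 : ∀ f : MvPolynomial (Option ι) k, f - rename some (σ f) ∈ I := by
    intro f
    have h2 : (Ideal.Quotient.mkₐ k I) = ((Ideal.Quotient.mkₐ k I).comp
        ((rename some : MvPolynomial ι k →ₐ[k] MvPolynomial (Option ι) k).comp σ)) := by
      refine MvPolynomial.algHom_ext fun o => ?_
      rcases o with _ | i
      · rw [AlgHom.comp_apply, AlgHom.comp_apply, hσ, aeval_X]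
        exact Ideal.Quotient.eq.2 hg
      · rw [AlgHom.comp_apply, AlgHom.comp_apply, hσ, aeval_X]
        change _ = Ideal.Quotient.mkₐ k I (rename some (X i))
        rw [rename_X]
    exact Ideal.Quotient.eq.1 (DFunLike.congr_fun h2 f)
  have h3 : aeval b (σ f) = 0 := by
    have h4 := span_le_of_holds (k := k) (adj b a) (h1 f)
    rw [map_sub, hf, aeval_adj, zero_sub, neg_eq_zero] at h4
    exact h4
  have h5 := rename_mem b a (hb _ h3)
  have h6 := I.add_mem (h1 f) h5
  rwa [sub_add_cancel] at h6

theorem mem_span_of_holds {ι : Type} (b : ι → A) (r : Rel ι) (hr : aeval b (relPoly k r) = 0) :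
    relPoly k r ∈ Ideal.span (relPoly k '' holds k b) := Ideal.subset_span ⟨r, hr, rfl⟩

/-- Adding a product. -/
theorem Pres.mul {ι : Type} {b : ι → A} (hb : Pres k b) (i j : ι) :
    Pres k (adj b (b i * b j)) := by
  refine hb.of_congr _ (X i * X j) ?_
  have h := mem_span_of_holds (k := k) (adj b (b i * b j))
    (.inl (some i, some j, none)) (by simp [relPoly])
  rw [relPoly] at h
  rw [map_mul, rename_X, rename_X, ← neg_sub]
  exact (Ideal.neg_mem_iff _).2 h

/-- Adding a sum. -/
theorem Pres.add {ι : Type} {b : ι → A} (hb : Pres k b) (i j : ι) :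
    Pres k (adj b (b i + b j)) := by
  refine hb.of_congr _ (X i + X j) ?_
  have h := mem_span_of_holds (k := k) (adj b (b i + b j))
    (.inr (.inl (some i, some j, none))) (by simp [relPoly])
  rw [relPoly] at h
  rw [map_add, rename_X, rename_X, ← neg_sub]
  exact (Ideal.neg_mem_iff _).2 h

/-- Adding a difference. -/
theorem Pres.sub {ι : Type} {b : ι → A} (hb : Pres k b) (i j : ι) :
    Pres k (adj b (b i - b j)) := by
  refine hb.of_congr _ (X i - X j) ?_
  have h := mem_span_of_holds (k := k) (adj b (b i - b j))
    (.inr (.inl (none, some j, some i))) (by simp [relPoly])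
  rw [relPoly] at h
  rw [map_sub, rename_X, rename_X]
  have h2 : (X none - (X (some i) - X (some j)) : MvPolynomial (Option ι) k) =
    X none + X (some j) - X (some i) := by ring
  rw [h2]
  exact h

/-- Adding `1`. -/
theorem Pres.one {ι : Type} {b : ι → A} (hb : Pres k b) :
    Pres k (adj b 1) := by
  refine hb.of_congr _ 1 ?_
  have h := mem_span_of_holds (k := k) (adj b 1)
    (.inr (.inr none)) (by simp [relPoly])
  rw [relPoly] at h
  rwa [map_one]

/-- Reindexing. -/
theorem Pres.equiv {ι κ : Type} (e : κ ≃ ι) {b : ι → A} (hb : Pres k b) : Pres k (b ∘ e) := by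
  intro f hf
  have h1 : aeval b (rename e f) = 0 := by
    rw [aeval_rename]
    exact hf
  have h2 := hb _ h1
  have h3 : Ideal.span (relPoly k '' holds k b) ≤
      (Ideal.span (relPoly k '' holds k (b ∘ e))).comap (rename e.symm : _ →ₐ[k] _) := by
    rw [Ideal.span_le]
    rintro _ ⟨r, hr, rfl⟩
    rw [SetLike.mem_coe, Ideal.mem_comap, rename_relPoly]
    refine Ideal.subset_span ⟨_, ?_, rfl⟩
    change aeval (b ∘ e) (relPoly k (r.map e.symm)) = 0
    rw [← rename_relPoly, aeval_rename]
    have h4 : (b ∘ e) ∘ e.symm = b := by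
      funext i
      simp
    rw [h4]
    exact hr
  have h5 := h3 h2
  rw [Ideal.mem_comap, rename_rename] at h5
  have h6 : (e.symm ∘ e : κ → κ) = id := by
    funext i
    simp
  rwa [h6, rename_id_apply] at h5

end Pool.Agent.H854.SQ
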