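import Pool.Agent.H854.SQ.Pred
import Pool.Agent.H854.AS.Fin

/-!
# The reduction to the members of one sequence
-/

set_option autoImplicit false

open CategoryTheory AlgebraicGeometry

universe u v w

namespace Pool.Agent.H854.SQ

open Pool.Agent.Y138.UC Pool.Agent.H854.AS

variable {k : Type u} [Field k]

/-- The member of the sequence as a covering belonging to the numbered equations. -/
noncomputable def seqIso (P : Polynomial k) {n N r : ℕ} (eV : Var n ≃ Fin N)
    (eE : Eqn n ≃ Fin (r + 1)) : seq P n ≅ aff k (CovQ P (eqF k eV eE)) :=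
  affIso ((covEquiv P (renE k eV eE) (univ k n)).trans
    (show Cov P (renE k eV eE (univ k n)) ≃ₐ[k] CovQ P (eqF k eV eE) by rw [renE_univ]))

theorem exists_num {n : ℕ} (hn : 0 < n) : ∃ (N r : ℕ) (_ : Var n ≃ Fin N)
    (_ : Eqn n ≃ Fin (r + 1)), n ≤ N := by
  have : Nonempty (Eqn n) := ⟨.inl (⟨0, hn⟩, ⟨0, hn⟩)⟩
  obtain ⟨r, hr⟩ := Nat.exists_eq_succ_of_ne_zero (Fintype.card_ne_zero (α := Eqn n))
  refine ⟨Fintype.card (Var n), r, Fintype.equivFin _, Fintype.equivFinOfCardEq hr, ?_⟩
  have h := Fintype.card_le_of_injective (Sum.inl : Fin n → Var n) Sum.inl_injective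
  rwa [Fintype.card_fin] at h

theorem isVariety_seq {P : Polynomial k} (hP : HasSimpleRoots P) (n : ℕ) :
    IsVariety (seq P n) := isVariety_aff _ (h := finiteType_cov P hP.1 hP.pos _)

/-- The members of the sequence for `y ^ 2 - y` are smooth. -/
theorem smooth_seq_two {n : ℕ} (hn : 0 < n) : Smooth (seq (pol k 2) n).hom := by
  obtain ⟨N, r, eV, eE, -⟩ := exists_num hn
  have h0 : Algebra.Smooth k (MvPolynomial (Fin N) k) := smooth_poly k k N
  have h1 := smooth_covQ (pol k 2) (pol_two (k := k)).1 pol_two.pos (eqF k eV eE) pol_two_coprime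
  have h2 : (seq (pol k 2) n).hom =
      (seqIso (pol k 2) eV eE).hom.left ≫ Spec.map (CommRingCat.ofHom
        (algebraMap k (CovQ (pol k 2) (eqF k eV eE)))) :=
    (Over.w (seqIso (pol k 2) eV eE).hom).symm
  rw [h2]
  have h3 : IsIso (seqIso (pol k 2) eV eE).hom.left :=
    inferInstanceAs (IsIso ((Over.forget _).map (seqIso (pol k 2) eV eE).hom))
  have h4 : Smooth (seqIso (pol k 2) eV eE).hom.left := inferInstance
  exact MorphismProperty.comp_mem _ _ _ h4 h1

/-- The members of the sequence for `y ^ p - y` are smooth in characteristic `p`. -/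
theorem smooth_seq_prime (p : ℕ) [Fact p.Prime] [CharP k p] {n : ℕ} (hn : 0 < n) :
    Smooth (seq (pol k p) n).hom := by
  obtain ⟨N, r, eV, eE, -⟩ := exists_num hn
  have h0 : Algebra.Smooth k (MvPolynomial (Fin N) k) := smooth_poly k k N
  have hc : IsCoprime (pol k p) (Polynomial.derivative (pol k p)) := by
    rw [derivative_pol]
    exact ⟨0, Polynomial.C (-1), by rw [← Polynomial.C_mul]; simp⟩
  have h1 := smooth_covQ (pol k p) (pol_prime (k := k) p).1 (pol_prime (k := k) p).pos
    (eqF k eV eE) hc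
  have h2 : (seq (pol k p) n).hom =
      (seqIso (pol k p) eV eE).hom.left ≫ Spec.map (CommRingCat.ofHom
        (algebraMap k (CovQ (pol k p) (eqF k eV eE)))) :=
    (Over.w (seqIso (pol k p) eV eE).hom).symm
  rw [h2]
  have h3 : IsIso (seqIso (pol k p) eV eE).hom.left :=
    inferInstanceAs (IsIso ((Over.forget _).map (seqIso (pol k p) eV eE).hom))
  have h4 : Smooth (seqIso (pol k p) eV eE).hom.left := inferInstance
  exact MorphismProperty.comp_mem _ _ _ h4 h1

theorem isAdmissible_seq {P : Polynomial k} (hP : HasSimpleRoots P) (n : ℕ) :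
    IsAdmissible (seq P n) := by
  have h : IsVariety (seq P n) := isVariety_seq hP n
  refine ⟨h, seq P n, 𝟙 _, 0, isBun_id _, ?_, h⟩
  change IsAffine (Spec _)
  infer_instance

variable {Q : Sch k → ℤ → Prop} (hQ : Transfers Q)
include hQ

/-- From the members of the sequence to all affine schemes. -/
theorem Transfers.affine {P : Polynomial k} (hP : HasSimpleRoots P) (hk : IsPrimeField k)
    (h : ∃ᶠ n in Filter.atTop, ∀ d, Q (seq P n) d) (B : Type u) [CommRing B] [Algebra k B]
    [Algebra.FiniteType k B] (d : ℤ) : Q (aff k B) d := by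
  obtain ⟨m₀, hm⟩ := exists_fin (B := B) hk
  obtain ⟨n, hn, hQn⟩ := (Filter.frequently_atTop.1 h) (max m₀ (d.toNat + 1))
  obtain ⟨b, hb, hb'⟩ := hm n ((le_max_left _ _).trans hn)
  have hn1 : d.toNat + 1 ≤ n := (le_max_right _ _).trans hn
  obtain ⟨N, r, eV, eE, hN⟩ := exists_num (n := n) (by omega)
  have hd : d ≠ N := by
    have := Int.self_le_toNat d
    omega
  have h2 : Q (aff k (CovQ P (eqF k eV eE))) (d + (r + 1 : ℕ)) :=
    hQ.iso (seqIso P eV eE) (isVariety_seq hP n)
      (isVariety_aff _ (h := finiteType_cov P hP.1 hP.pos _)) _ (hQn _)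
  have h3 := hQ.zeros (eqF k eV eE) hP d hd h2
  have h4 : Q (aff k (Quo k n)) d :=
    hQ.iso (affIso (quoEquiv eV eE)) (isVariety_aff _) (isVariety_aff _) _ h3
  refine hQ.ofClopen (affMap ((psi b : Quo k n →ₐ[k] B) : Quo k n →+* B)
    (AlgHom.comp_algebraMap _)) ?_ ?_ (isVariety_aff _) (isVariety_aff _) d h4
  · exact IsClosedImmersion.spec_of_surjective _ (psi_surjective hb)
  · exact (isOpenImmersion_SpecMap_iff_of_surjective _ (psi_surjective hb)).2 ⟨_, ker_psi hb'⟩

/-- From the members of the sequence to all admissible schemes. -/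
theorem Transfers.admissible {P : Polynomial k} (hP : HasSimpleRoots P) (hk : IsPrimeField k)
    (h : ∃ᶠ n in Filter.atTop, ∀ d, Q (seq P n) d) (X : Sch k) (hX : IsAdmissible X) (d : ℤ) :
    Q X d := by
  obtain ⟨vX, E, f, r, hf, hE, vE⟩ := hX
  obtain ⟨B, _, _, hB, ⟨eB⟩⟩ := exists_aff_iso E vE
  refine hQ.bundle hf vE vX d (d + r) rfl ?_
  exact hQ.iso eB (isVariety_aff _) vE _ (hQ.affine hP hk h B _)

end Pool.Agent.H854.SQ
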